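import Mathlib

set_option autoImplicit false

namespace Pool.Agent.LimPer

open Finset Polynomial

section Op

variable {M : Type*} [AddCommGroup M] [Module ℝ M]

/-- The discrete Schroedinger operator with potential `V` acting on all functions `ℤ → M`. -/
def op (V : ℤ → ℝ) : (ℤ → M) →ₗ[ℝ] (ℤ → M) where
  toFun u n := u (n + 1) + u (n - 1) + V n • u n
  map_add' u v := by
    funext n
    simp only [Pi.add_apply, smul_add]
    abel
  map_smul' c u := by
    funext n
    simp only [Pi.smul_apply, RingHom.id_apply, smul_add]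
    rw [smul_comm (V n) c (u n)]

theorem op_apply (V : ℤ → ℝ) (u : ℤ → M) (n : ℤ) :
    op V u n = u (n + 1) + u (n - 1) + V n • u n := rfl

/-- The same operator on finitely supported functions. -/
noncomputable def opF (V : ℤ → ℝ) : (ℤ →₀ ℝ) →ₗ[ℝ] (ℤ →₀ ℝ) :=
  Finsupp.linearCombination ℝ (fun n : ℤ =>
    Finsupp.single (n + 1) (1 : ℝ) + Finsupp.single (n - 1) (1 : ℝ) + V n • Finsupp.single n (1 : ℝ))

/-- Pairing of a function with a finitely supported one. -/
noncomputable def pair (g : ℤ → M) : (ℤ →₀ ℝ) →ₗ[ℝ] M := Finsupp.linearCombination ℝ g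

theorem pair_single (g : ℤ → M) (n : ℤ) (a : ℝ) : pair g (Finsupp.single n a) = a • g n := by
  simp [pair]

theorem pair_eq_sum (g : ℤ → M) (f : ℤ →₀ ℝ) : pair g f = ∑ n ∈ f.support, f n • g n := by
  simp [pair, Finsupp.linearCombination_apply, Finsupp.sum]

theorem pair_eq_sum_of_subset (g : ℤ → M) (f : ℤ →₀ ℝ) (s : Finset ℤ) (hs : f.support ⊆ s) :
    pair g f = ∑ n ∈ s, f n • g n := by
  rw [pair_eq_sum]
  apply Finset.sum_subset hs
  intro x _ hx
  simp [Finsupp.notMem_support_iff.mp hx]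

theorem pair_add (g h : ℤ → M) (f : ℤ →₀ ℝ) : pair (g + h) f = pair g f + pair h f := by
  simp [pair_eq_sum, Finset.sum_add_distrib]

theorem pair_smul (c : ℝ) (g : ℤ → M) (f : ℤ →₀ ℝ) : pair (c • g) f = c • pair g f := by
  simp only [pair_eq_sum, Finset.smul_sum, Pi.smul_apply]
  apply Finset.sum_congr rfl
  intro x _
  rw [smul_comm]

theorem opF_single (V : ℤ → ℝ) (n : ℤ) :
    opF V (Finsupp.single n 1) = Finsupp.single (n + 1) (1 : ℝ) + Finsupp.single (n - 1) (1 : ℝ)
      + V n • Finsupp.single n (1 : ℝ) := by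
  simp [opF]

theorem pair_opF (V : ℤ → ℝ) (g : ℤ → M) (f : ℤ →₀ ℝ) :
    pair g (opF V f) = pair (op V g) f := by
  have : (pair g).comp (opF V) = pair (op V g) := by
    apply Finsupp.lhom_ext'
    intro n
    apply LinearMap.ext_ring
    simp only [LinearMap.coe_comp, Function.comp_apply, Finsupp.lsingle_apply]
    rw [opF_single, map_add, map_add, map_smul, pair_single, pair_single, pair_single,
      pair_single, op_apply]
    simp
  exact LinearMap.congr_fun this f

theorem opF_apply (V : ℤ → ℝ) (f : ℤ →₀ ℝ) (n : ℤ) :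
    opF V f n = f (n + 1) + f (n - 1) + V n * f n := by
  have : (Finsupp.lapply n).comp (opF V) =
      ((Finsupp.lapply (n + 1) + Finsupp.lapply (n - 1) + V n • Finsupp.lapply n :
        (ℤ →₀ ℝ) →ₗ[ℝ] ℝ)) := by
    apply Finsupp.lhom_ext'
    intro m
    apply LinearMap.ext_ring
    simp only [LinearMap.coe_comp, Function.comp_apply, Finsupp.lsingle_apply,
      Finsupp.lapply_apply, LinearMap.add_apply, LinearMap.smul_apply, smul_eq_mul]
    rw [opF_single]
    simp only [Finsupp.coe_add, Pi.add_apply, Finsupp.coe_smul, Pi.smul_apply, smul_eq_mul,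
      Finsupp.single_apply]
    have h1 : (m + 1 = n) ↔ (m = n - 1) := by omega
    have h2 : (m - 1 = n) ↔ (m = n + 1) := by omega
    simp only [h1, h2]
    by_cases h : m = n
    · subst h
      simp
    · simp [h]
      ring
  have := LinearMap.congr_fun this f
  simpa using this

theorem coe_opF (V : ℤ → ℝ) (f : ℤ →₀ ℝ) : ⇑(opF V f) = op V (⇑f) := by
  funext n
  rw [opF_apply, op_apply, smul_eq_mul]

theorem pair_opF_pow (V : ℤ → ℝ) (g : ℤ → M) (f : ℤ →₀ ℝ) (m : ℕ) :
    pair g ((opF V ^ m) f) = pair ((op V ^ m) g) f := by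
  induction m generalizing f g with
  | zero => simp
  | succ m ih =>
    rw [pow_succ, pow_succ']
    simp only [Module.End.mul_apply]
    rw [ih, pair_opF]

theorem coe_opF_pow (V : ℤ → ℝ) (f : ℤ →₀ ℝ) (m : ℕ) :
    ⇑((opF V ^ m) f) = (op V ^ m) (⇑f) := by
  induction m with
  | zero => simp
  | succ m ih =>
    rw [pow_succ', pow_succ']
    simp only [Module.End.mul_apply]
    rw [coe_opF, ih]

theorem pair_aeval (V : ℤ → ℝ) (g : ℤ → M) (f : ℤ →₀ ℝ) (q : ℝ[X]) :
    pair g (aeval (opF V) q f) = pair (aeval (op V) q g) f := by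
  induction q using Polynomial.induction_on' with
  | add p q hp hq => simp only [map_add, LinearMap.add_apply, hp, hq, pair_add]
  | monomial m a =>
    rw [Polynomial.aeval_monomial, Polynomial.aeval_monomial]
    simp only [Module.End.mul_apply, Module.algebraMap_end_apply]
    rw [map_smul, pair_opF_pow, pair_smul]

theorem coe_aeval (V : ℤ → ℝ) (f : ℤ →₀ ℝ) (q : ℝ[X]) :
    ⇑(aeval (opF V) q f) = aeval (op V) q (⇑f) := by
  induction q using Polynomial.induction_on' with
  | add p q hp hq => simp only [map_add, LinearMap.add_apply, Finsupp.coe_add, hp, hq]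
  | monomial m a =>
    rw [Polynomial.aeval_monomial, Polynomial.aeval_monomial]
    simp only [Module.End.mul_apply, Module.algebraMap_end_apply]
    rw [Finsupp.coe_smul, coe_opF_pow]

/-- Generalised eigenfunctions. -/
theorem aeval_eigen (V : ℤ → ℝ) (g : ℤ → M) (E : ℝ) (hg : op V g = E • g) (q : ℝ[X]) :
    aeval (op V) q g = (q.eval E) • g := by
  induction q using Polynomial.induction_on' with
  | add p q hp hq => simp only [map_add, LinearMap.add_apply, hp, hq, eval_add, add_smul]
  | monomial m a =>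
    rw [Polynomial.aeval_monomial]
    simp only [Module.End.mul_apply, Module.algebraMap_end_apply, eval_monomial]
    have : ∀ m : ℕ, (op V ^ m) g = (E ^ m) • g := by
      intro m
      induction m with
      | zero => simp
      | succ m ih =>
        rw [pow_succ', Module.End.mul_apply, ih, map_smul, hg, smul_smul, pow_succ]
    rw [this, smul_smul]

end Op

/-- Squared norm of a finitely supported function. -/
noncomputable def nsq (f : ℤ →₀ ℝ) : ℝ := ∑ n ∈ f.support, f n ^ 2

theorem nsq_eq_of_subset (f : ℤ →₀ ℝ) (s : Finset ℤ) (hs : f.support ⊆ s) :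
    nsq f = ∑ n ∈ s, f n ^ 2 := by
  rw [nsq]
  apply Finset.sum_subset hs
  intro x _ hx
  simp [Finsupp.notMem_support_iff.mp hx]

theorem nsq_nonneg (f : ℤ →₀ ℝ) : 0 ≤ nsq f := Finset.sum_nonneg fun _ _ => sq_nonneg _

/-- The vector `q(H) δ_k`. -/
noncomputable def vec (V : ℤ → ℝ) (q : ℝ[X]) (k : ℤ) : ℤ →₀ ℝ :=
  aeval (opF V) q (Finsupp.single k 1)

/-- The functional `q ↦ ⟨δ_k, q(H) δ_k⟩`. -/
noncomputable def fnl (V : ℤ → ℝ) (k : ℤ) (q : ℝ[X]) : ℝ :=
  aeval (op V) q (Pi.single k (1 : ℝ) : ℤ → ℝ) k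

theorem coe_single_eq (k : ℤ) : (⇑(Finsupp.single k (1 : ℝ)) : ℤ → ℝ) = Pi.single k 1 := by
  funext n
  simp [Finsupp.single_apply, Pi.single_apply, eq_comm]

theorem fnl_sq (V : ℤ → ℝ) (k : ℤ) (q : ℝ[X]) : fnl V k (q ^ 2) = nsq (vec V q k) := by
  have h1 : fnl V k (q ^ 2) =
      pair (aeval (op V) q (aeval (op V) q (Pi.single k (1 : ℝ) : ℤ → ℝ)))
        (Finsupp.single k (1 : ℝ)) := by
    rw [pair_single, one_smul, fnl, pow_two, map_mul]
    rfl
  rw [h1, ← pair_aeval, ← coe_single_eq, ← coe_aeval]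
  rw [pair_eq_sum, nsq]
  apply Finset.sum_congr rfl
  intro n _
  rw [vec, smul_eq_mul, pow_two]

theorem fnl_pow (V : ℤ → ℝ) (k : ℤ) (m : ℕ) :
    fnl V k (X ^ m) = Nat.iterate (fun u : ℤ → ℝ => fun n : ℤ => u (n + 1) + u (n - 1) + V n * u n)
      m (Pi.single k (1 : ℝ) : ℤ → ℝ) k := by
  rw [fnl, map_pow, aeval_X, Module.End.pow_apply]
  rfl

end Pool.Agent.LimPer
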