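import Mathlib
import Pool.Agent.Lib.MP_b5b0d6_mp.Basic

set_option autoImplicit false

namespace Pool.Agent.LimPer

open MeasureTheory ContinuousLinearMap
open scoped CompactlySupported InnerProductSpace

section General

variable {H : Type*} [NormedAddCommGroup H] [InnerProductSpace ℂ H] [CompleteSpace H]

/-- Spectral measure of a bounded self-adjoint operator at a vector, in moment form. -/
theorem exists_measure_of_selfAdjoint (T : H →L[ℂ] H) (hT : IsSelfAdjoint T) (x : H) :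
    ∃ μ : Measure ℝ, IsFiniteMeasure μ ∧ μ (Set.Icc (-‖T‖) ‖T‖)ᶜ = 0 ∧
      ∀ m : ℕ, ∫ t, t ^ m ∂μ = (⟪x, (T ^ m) x⟫_ℂ).re := by
  classical
  let S : Set ℝ := spectrum ℝ T
  have hcs : CompactSpace S := isCompact_iff_compactSpace.mp
    (ContinuousFunctionalCalculus.isCompact_spectrum (R := ℝ) T)
  let Φ : C(S, ℝ) →⋆ₐ[ℝ] (H →L[ℂ] H) := cfcHom hT
  let lin : C_c(S, ℝ) →ₗ[ℝ] ℝ :=
    { toFun := fun f => (⟪x, (Φ f.toContinuousMap) x⟫_ℂ).re
      map_add' := by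
        intro f g
        have : (f + g).toContinuousMap = f.toContinuousMap + g.toContinuousMap := rfl
        rw [this, map_add, add_apply, inner_add_right, Complex.add_re]
      map_smul' := by
        intro c f
        have : (c • f).toContinuousMap = c • f.toContinuousMap := rfl
        rw [this, map_smul, smul_apply]
        have h2 : c • (Φ f.toContinuousMap) x = (c : ℂ) • (Φ f.toContinuousMap) x := by
          rw [Complex.coe_smul]
        rw [h2, inner_smul_right]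
        simp }
  let Λ : C_c(S, ℝ) →ₚ[ℝ] ℝ := PositiveLinearMap.mk₀ lin (by
    intro f hf
    have hf' : ∀ s, 0 ≤ f.toContinuousMap s := hf
    -- write f as a square
    let g : C(S, ℝ) := ⟨fun s => Real.sqrt (f.toContinuousMap s),
      Real.continuous_sqrt.comp f.toContinuousMap.continuous⟩
    have hfg : f.toContinuousMap = star g * g := by
      ext s
      simp only [ContinuousMap.mul_apply, star_trivial]
      exact (Real.mul_self_sqrt (hf' s)).symm
    change 0 ≤ (⟪x, (Φ f.toContinuousMap) x⟫_ℂ).re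
    rw [hfg, map_mul, map_star]
    change 0 ≤ (⟪x, (adjoint (Φ g)) ((Φ g) x)⟫_ℂ).re
    rw [adjoint_inner_right]
    exact inner_self_nonneg (𝕜 := ℂ) (x := (Φ g) x))
  let ν : Measure S := RealRMK.rieszMeasure Λ
  have hint : ∀ f : C(S, ℝ), ∫ s, f s ∂ν = (⟪x, (Φ f) x⟫_ℂ).re := by
    intro f
    have := RealRMK.integral_rieszMeasure Λ
      (⟨f, HasCompactSupport.of_compactSpace _⟩ : C_c(S, ℝ))
    exact this
  have hfin : IsFiniteMeasure ν := by
    constructor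
    let o : C_c(S, ℝ) := ⟨1, HasCompactSupport.of_compactSpace _⟩
    refine lt_of_le_of_lt (RealRMK.rieszMeasure_le_of_eq_one Λ (f := o) (K := Set.univ)
      (fun x => by simp [o]) isCompact_univ (fun x _ => by simp [o])) ?_
    exact ENNReal.ofReal_lt_top
  refine ⟨ν.map Subtype.val, inferInstance, ?_, ?_⟩
  · rw [Measure.map_apply measurable_subtype_coe measurableSet_Icc.compl]
    have : (Subtype.val ⁻¹' (Set.Icc (-‖T‖) ‖T‖)ᶜ : Set S) = ∅ := by
      ext s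
      simp only [Set.mem_preimage, Set.mem_compl_iff, Set.mem_Icc, Set.mem_empty_iff_false,
        iff_false, not_not]
      have h1 := spectrum.norm_le_norm_mul_of_mem s.2
      have h2 : ‖(1 : H →L[ℂ] H)‖ ≤ 1 := ContinuousLinearMap.norm_id_le
      have h3 : ‖(s : ℝ)‖ ≤ ‖T‖ := h1.trans (by nlinarith [norm_nonneg T])
      rw [Real.norm_eq_abs, abs_le] at h3
      exact h3
    rw [this]
    simp
  · intro m
    rw [integral_map measurable_subtype_coe.aemeasurable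
      (by fun_prop)]
    let idc : C(S, ℝ) := (ContinuousMap.id ℝ).restrict S
    have h1 := hint (idc ^ m)
    rw [map_pow] at h1
    have h2 : Φ idc = T := cfcHom_id hT
    rw [h2] at h1
    rw [← h1]
    rfl

end General

section Lp

/-- The Hilbert space. -/
noncomputable abbrev L2 := lp (fun _ : ℤ => ℂ) 2

theorem memℓp_two_iff (u : ℤ → ℂ) : Memℓp u 2 ↔ Summable (fun n => ‖u n‖ ^ 2) := by
  rw [memℓp_gen_iff (by norm_num)]
  simp

theorem memℓp_shift (u : ℤ → ℂ) (hu : Memℓp u 2) (a : ℤ) : Memℓp (fun n => u (n + a)) 2 := by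
  rw [memℓp_two_iff] at hu ⊢
  exact (Equiv.addRight a).summable_iff.mpr hu

theorem memℓp_mul (V : ℤ → ℝ) (C : ℝ) (hV : ∀ n, |V n| ≤ C) (u : ℤ → ℂ) (hu : Memℓp u 2) :
    Memℓp (fun n => (V n : ℂ) * u n) 2 := by
  rw [memℓp_two_iff] at hu ⊢
  refine Summable.of_nonneg_of_le (fun n => by positivity) (fun n => ?_) (hu.mul_left (C ^ 2))
  rw [norm_mul, mul_pow]
  have h1 : ‖(V n : ℂ)‖ ^ 2 ≤ C ^ 2 := by
    rw [Complex.norm_real, Real.norm_eq_abs]
    exact pow_le_pow_left₀ (abs_nonneg _) (hV n) 2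
  exact mul_le_mul_of_nonneg_right h1 (by positivity)

/-- The Schroedinger operator on `ℓ²(ℤ)` as a linear map. -/
noncomputable def opL2 (V : ℤ → ℝ) (C : ℝ) (hV : ∀ n, |V n| ≤ C) : L2 →ₗ[ℂ] L2 where
  toFun u := ⟨fun n => u (n + 1) + u (n + (-1)) + (V n : ℂ) * u n,
    ((memℓp_shift _ u.2 1).add (memℓp_shift _ u.2 (-1))).add (memℓp_mul V C hV _ u.2)⟩
  map_add' u v := by
    ext n
    simp only [lp.coeFn_add, Pi.add_apply]
    ring
  map_smul' c u := by
    ext n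
    simp only [lp.coeFn_smul, Pi.smul_apply, smul_eq_mul, RingHom.id_apply]
    ring

theorem opL2_apply (V : ℤ → ℝ) (C : ℝ) (hV : ∀ n, |V n| ≤ C) (u : L2) (n : ℤ) :
    opL2 V C hV u n = u (n + 1) + u (n - 1) + (V n : ℂ) * u n := rfl

theorem summable_shift_mul (u v : L2) (a b : ℤ) :
    Summable (fun n => ⟪u (n + a), v (n + b)⟫_ℂ) := by
  have := lp.summable_inner (𝕜 := ℂ) (⟨_, memℓp_shift u u.2 a⟩ : L2) (⟨_, memℓp_shift v v.2 b⟩ : L2)
  exact this

theorem opL2_symm (V : ℤ → ℝ) (C : ℝ) (hV : ∀ n, |V n| ≤ C) : (opL2 V C hV).IsSymmetric := by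
  intro u v
  rw [lp.inner_eq_tsum, lp.inner_eq_tsum]
  have e1 : ∀ n : ℤ, ⟪opL2 V C hV u n, v n⟫_ℂ =
      ⟪u (n + 1), v (n + 0)⟫_ℂ + ⟪u (n + (-1)), v (n + 0)⟫_ℂ + (V n : ℂ) * ⟪u n, v n⟫_ℂ := by
    intro n
    rw [opL2_apply]
    simp only [inner_add_left, add_zero, ← sub_eq_add_neg]
    congr 1
    rw [RCLike.inner_apply, RCLike.inner_apply]
    simp
    ring
  have e2 : ∀ n : ℤ, ⟪u n, opL2 V C hV v n⟫_ℂ =
      ⟪u (n + 0), v (n + 1)⟫_ℂ + ⟪u (n + 0), v (n + (-1))⟫_ℂ + (V n : ℂ) * ⟪u n, v n⟫_ℂ := by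
    intro n
    rw [opL2_apply]
    simp only [inner_add_right, add_zero, ← sub_eq_add_neg]
    congr 1
    rw [RCLike.inner_apply, RCLike.inner_apply]
    ring
  have hVs : Summable (fun n => (V n : ℂ) * ⟪u n, v n⟫_ℂ) := by
    have := lp.summable_inner (𝕜 := ℂ) u (⟨_, memℓp_mul V C hV v v.2⟩ : L2)
    refine this.congr ?_
    intro n
    rw [RCLike.inner_apply, RCLike.inner_apply]
    ring
  simp_rw [e1, e2]
  rw [Summable.tsum_add ((summable_shift_mul u v 1 0).add (summable_shift_mul u v (-1) 0)) hVs,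
    Summable.tsum_add ((summable_shift_mul u v 0 1).add (summable_shift_mul u v 0 (-1))) hVs,
    Summable.tsum_add (summable_shift_mul u v 1 0) (summable_shift_mul u v (-1) 0),
    Summable.tsum_add (summable_shift_mul u v 0 1) (summable_shift_mul u v 0 (-1))]
  have s1 : ∑' n : ℤ, ⟪u (n + 1), v (n + 0)⟫_ℂ = ∑' n : ℤ, ⟪u (n + 0), v (n + (-1))⟫_ℂ := by
    rw [← (Equiv.addRight (1 : ℤ)).tsum_eq (fun n : ℤ => ⟪u (n + 0), v (n + (-1))⟫_ℂ)]
    apply tsum_congr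
    intro n
    simp
  have s2 : ∑' n : ℤ, ⟪u (n + (-1)), v (n + 0)⟫_ℂ = ∑' n : ℤ, ⟪u (n + 0), v (n + 1)⟫_ℂ := by
    rw [← (Equiv.addRight (-1 : ℤ)).tsum_eq (fun n : ℤ => ⟪u (n + 0), v (n + 1)⟫_ℂ)]
    apply tsum_congr
    intro n
    simp
  rw [s1, s2]
  ring

/-- The bounded self-adjoint operator. -/
noncomputable def opCLM (V : ℤ → ℝ) (C : ℝ) (hV : ∀ n, |V n| ≤ C) : L2 →L[ℂ] L2 :=
  ⟨opL2 V C hV, (opL2_symm V C hV).continuous⟩

theorem opCLM_selfAdjoint (V : ℤ → ℝ) (C : ℝ) (hV : ∀ n, |V n| ≤ C) :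
    IsSelfAdjoint (opCLM V C hV) :=
  ContinuousLinearMap.isSelfAdjoint_iff_isSymmetric.mpr (opL2_symm V C hV)

theorem opCLM_apply (V : ℤ → ℝ) (C : ℝ) (hV : ∀ n, |V n| ≤ C) (u : L2) (n : ℤ) :
    opCLM V C hV u n = u (n + 1) + u (n - 1) + (V n : ℂ) * u n := rfl

theorem opCLM_pow_single (V : ℤ → ℝ) (C : ℝ) (hV : ∀ n, |V n| ≤ C) (k : ℤ) (m : ℕ) (n : ℤ) :
    ((opCLM V C hV) ^ m) (lp.single (E := fun _ : ℤ => ℂ) 2 k (1 : ℂ)) n
      = (((op V ^ m) (Pi.single k (1 : ℝ) : ℤ → ℝ) n : ℝ) : ℂ) := by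
  induction m generalizing n with
  | zero =>
    simp only [pow_zero, Module.End.one_apply]
    change (lp.single (E := fun _ : ℤ => ℂ) 2 k (1 : ℂ)) n = _
    by_cases h : n = k
    · subst h; simp
    · simp [lp.single_apply, h]
  | succ m ih =>
    rw [pow_succ', pow_succ', Module.End.mul_apply, op_apply]
    change (opCLM V C hV) (((opCLM V C hV) ^ m) (lp.single (E := fun _ : ℤ => ℂ) 2 k (1 : ℂ))) n = _
    rw [opCLM_apply, ih, ih, ih]
    simp

theorem exists_spectral_measure (V : ℤ → ℝ) (C : ℝ) (hV : ∀ n, |V n| ≤ C) :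
    ∃ R : ℝ, 0 < R ∧ ∀ k : ℤ, ∃ μ : Measure ℝ, IsFiniteMeasure μ ∧ μ (Set.Icc (-R) R)ᶜ = 0 ∧
      ∀ m : ℕ, ∫ t, t ^ m ∂μ = fnl V k (Polynomial.X ^ m) := by
  refine ⟨‖opCLM V C hV‖ + 1, by positivity, fun k => ?_⟩
  obtain ⟨μ, hfin, hsupp, hmom⟩ := exists_measure_of_selfAdjoint (opCLM V C hV)
    (opCLM_selfAdjoint V C hV) (lp.single (E := fun _ : ℤ => ℂ) 2 k (1 : ℂ))
  refine ⟨μ, hfin, ?_, ?_⟩
  · refine measure_mono_null ?_ hsupp
    intro x hx hx2
    apply hx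
    exact ⟨by linarith [hx2.1], by linarith [hx2.2]⟩
  · intro m
    rw [hmom, lp.inner_single_left, fnl, map_pow, Polynomial.aeval_X, opCLM_pow_single]
    simp

end Lp

end Pool.Agent.LimPer
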