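import Mathlib

set_option autoImplicit false

namespace Pool.Agent.LimPer

open MeasureTheory Set
open scoped ENNReal NNReal

/-- One-dimensional area-type inequality: if the sum of `F` over any finite part of a fibre of
`f` in `S` is at most `C`, then `∫_S F |f'| ≤ C vol(T)`, for `f(S) ⊆ T`. -/
theorem lintegral_fibre_le (f f' : ℝ → ℝ) (S T : Set ℝ) (hS : MeasurableSet S)
    (hT : MeasurableSet T) (hf : ∀ x ∈ S, HasDerivAt f (f' x) x) (hf' : ∀ x ∈ S, f' x ≠ 0)
    (hST : ∀ x ∈ S, f x ∈ T) (F : ℝ → ℝ≥0∞) (C : ℝ≥0∞)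
    (hF : ∀ y : ℝ, ∀ s : Finset ℝ, (∀ x ∈ s, x ∈ S ∧ f x = y) → ∑ x ∈ s, F x ≤ C) :
    ∫⁻ x in S, ENNReal.ofReal |f' x| * F x ≤ C * volume T := by
  classical
  -- partition into injectivity pieces
  let r : (ℝ →L[ℝ] ℝ) → ℝ≥0 := fun A => if A 1 = 0 then 1 else ‖A 1‖₊ / 2
  have hr : ∀ A, r A ≠ 0 := by
    intro A
    by_cases h : A 1 = 0
    · simp [r, h]
    · simp [r, h]
  obtain ⟨t, A, tdisj, tmeas, tcov, tapprox, tA⟩ :=
    exists_partition_approximatesLinearOn_of_hasFDerivWithinAt f S
      (fun x => ContinuousLinearMap.toSpanSingleton ℝ (f' x))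
      (fun x hx => (hf x hx).hasFDerivAt.hasFDerivWithinAt) r hr
  by_cases hne : S.Nonempty
  swap
  · rw [Set.not_nonempty_iff_eq_empty.mp hne]
    simp
  have hinj : ∀ n, InjOn f (S ∩ t n) := by
    intro n
    obtain ⟨y, hy, hyA⟩ := tA hne n
    intro a ha b hb hab
    by_contra hne2
    have h1 := tapprox n a ha b hb
    rw [hab] at h1
    have h2 : (A n) 1 = f' y := by rw [hyA]; simp
    have h3 : (A n) (a - b) = (a - b) * f' y := by
      have : (A n) (a - b) = (a - b) • (A n) 1 := by
        rw [← map_smul]; simp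
      rw [this, h2, smul_eq_mul]
    have h4 : r (A n) = ‖f' y‖₊ / 2 := by
      simp only [r, h2, hf' y hy, if_false]
    rw [h3, h4, sub_self, zero_sub, norm_neg, norm_mul] at h1
    have h5 : 0 < ‖a - b‖ := norm_pos_iff.mpr (sub_ne_zero.mpr hne2)
    have h6 : 0 < ‖f' y‖ := norm_pos_iff.mpr (hf' y hy)
    have h7 : ((‖f' y‖₊ / 2 : ℝ≥0) : ℝ) = ‖f' y‖ / 2 := by simp
    rw [h7] at h1
    nlinarith [mul_pos h5 h6]
  have hSun : S = ⋃ n, S ∩ t n := by
    rw [← inter_iUnion]
    exact (inter_eq_left.mpr tcov).symm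
  have hpm : ∀ n, MeasurableSet (S ∩ t n) := fun n => hS.inter (tmeas n)
  have hpd : Pairwise (Function.onFun Disjoint fun n => S ∩ t n) := fun i j hij =>
    (tdisj hij).mono inter_subset_right inter_subset_right
  conv_lhs => rw [hSun]
  rw [lintegral_iUnion hpm hpd, ENNReal.tsum_eq_iSup_sum]
  apply iSup_le
  intro s
  -- the inverse functions
  let g : ℕ → ℝ → ℝ≥0∞ := fun n y => F (Function.invFunOn f (S ∩ t n) y)
  have hg : ∀ n, ∀ x ∈ S ∩ t n, g n (f x) = F x := by
    intro n x hx
    simp only [g]
    congr 1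
    exact (hinj n).leftInvOn_invFunOn hx
  have step : ∀ n, ∫⁻ x in S ∩ t n, ENNReal.ofReal |f' x| * F x =
      ∫⁻ y, (f '' (S ∩ t n)).indicator (g n) y := by
    intro n
    have hmim : MeasurableSet (f '' (S ∩ t n)) :=
      measurable_image_of_fderivWithin (hpm n)
        (fun x hx => (hf x hx.1).hasFDerivAt.hasFDerivWithinAt) (hinj n)
    rw [lintegral_indicator hmim, lintegral_image_eq_lintegral_abs_deriv_mul (hpm n)
      (fun x hx => (hf x hx.1).hasDerivWithinAt) (hinj n)]
    apply setLIntegral_congr_fun (hpm n)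
    intro x hx
    simp only
    rw [hg n x hx]
  have hsum : ∀ s : Finset ℕ, ∑ n ∈ s, ∫⁻ y, (f '' (S ∩ t n)).indicator (g n) y ≤
      ∫⁻ y, ∑ n ∈ s, (f '' (S ∩ t n)).indicator (g n) y := by
    intro s
    induction s using Finset.induction_on with
    | empty => simp
    | insert a s ha ih =>
      rw [Finset.sum_insert ha]
      calc _ ≤ (∫⁻ y, (f '' (S ∩ t a)).indicator (g a) y) +
            ∫⁻ y, ∑ n ∈ s, (f '' (S ∩ t n)).indicator (g n) y := by gcongr
        _ ≤ ∫⁻ y, ((f '' (S ∩ t a)).indicator (g a) y +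
            ∑ n ∈ s, (f '' (S ∩ t n)).indicator (g n) y) := le_lintegral_add _ _
        _ = _ := by
            apply lintegral_congr
            intro y
            rw [Finset.sum_insert ha]
  calc ∑ n ∈ s, ∫⁻ x in S ∩ t n, ENNReal.ofReal |f' x| * F x
      = ∑ n ∈ s, ∫⁻ y, (f '' (S ∩ t n)).indicator (g n) y :=
        Finset.sum_congr rfl fun n _ => step n
    _ ≤ ∫⁻ y, ∑ n ∈ s, (f '' (S ∩ t n)).indicator (g n) y := hsum s
    _ ≤ ∫⁻ y, T.indicator (fun _ => C) y := by
        apply lintegral_mono
        intro y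
        simp only
        by_cases hy : y ∈ T
        · rw [indicator_of_mem hy]
          -- restrict the sum to those n with y in the image
          let s' := s.filter (fun n => y ∈ f '' (S ∩ t n))
          have e1 : ∑ n ∈ s, (f '' (S ∩ t n)).indicator (g n) y = ∑ n ∈ s', g n y := by
            rw [Finset.sum_filter]
            apply Finset.sum_congr rfl
            intro n _
            rw [indicator_apply]
          rw [e1]
          let x : ℕ → ℝ := fun n => Function.invFunOn f (S ∩ t n) y
          have hx : ∀ n ∈ s', x n ∈ S ∩ t n ∧ f (x n) = y := by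
            intro n hn
            have hn' : y ∈ f '' (S ∩ t n) := (Finset.mem_filter.mp hn).2
            have := Function.invFunOn_pos (f := f) (s := S ∩ t n) (b := y) hn'
            exact this
          have hinj2 : Set.InjOn x s' := by
            intro a ha b hb hab
            by_contra hne3
            have h1 := (hx a ha).1.2
            have h2 := (hx b hb).1.2
            rw [hab] at h1
            exact (Set.disjoint_left.mp (tdisj hne3)) h1 h2
          have e2 : ∑ n ∈ s', g n y = ∑ z ∈ s'.image x, F z := by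
            rw [Finset.sum_image hinj2]
          rw [e2]
          apply hF y
          intro z hz
          obtain ⟨n, hn, rfl⟩ := Finset.mem_image.mp hz
          exact ⟨(hx n hn).1.1, (hx n hn).2⟩
        · rw [indicator_of_notMem hy]
          apply le_of_eq
          apply Finset.sum_eq_zero
          intro n _
          rw [indicator_of_notMem]
          rintro ⟨z, hz, rfl⟩
          exact hy (hST z hz.1)
    _ = C * volume T := by
        rw [lintegral_indicator hT]
        simp

end Pool.Agent.LimPer
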