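import Mathlib
import Pool.Agent.Lib.MP_b5b0d6_mp.Basic

set_option autoImplicit false

namespace Pool.Agent.LimPer

/-- `u` solves the Schroedinger equation at energy `E`. -/
def IsSol (V : ℤ → ℝ) (E : ℝ) (u : ℤ → ℝ) : Prop :=
  ∀ n : ℤ, u (n + 1) + u (n - 1) + V n * u n = E * u n

/-- Forward iteration. -/
def fwd (V : ℤ → ℝ) (a b E : ℝ) : ℕ → ℝ × ℝ
  | 0 => (a, b)
  | n + 1 => ((fwd V a b E n).2,
      (E - V ((n : ℤ) + 1)) * (fwd V a b E n).2 - (fwd V a b E n).1)

/-- Backward iteration. -/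
def bwd (V : ℤ → ℝ) (a b E : ℝ) : ℕ → ℝ × ℝ
  | 0 => (a, b)
  | n + 1 => ((E - V (-(n : ℤ))) * (bwd V a b E n).1 - (bwd V a b E n).2,
      (bwd V a b E n).1)

/-- The solution with data `a, b` at sites `0, 1`. -/
def sol (V : ℤ → ℝ) (a b E : ℝ) : ℤ → ℝ
  | Int.ofNat n => (fwd V a b E n).1
  | Int.negSucc n => (bwd V a b E (n + 1)).1

theorem sol_natCast (V : ℤ → ℝ) (a b E : ℝ) (n : ℕ) : sol V a b E (n : ℤ) = (fwd V a b E n).1 := rfl

theorem sol_neg_natCast (V : ℤ → ℝ) (a b E : ℝ) (n : ℕ) :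
    sol V a b E (-(n : ℤ)) = (bwd V a b E n).1 := by
  cases n with
  | zero => rfl
  | succ n => rfl

theorem sol_zero (V : ℤ → ℝ) (a b E : ℝ) : sol V a b E 0 = a := rfl

theorem sol_one (V : ℤ → ℝ) (a b E : ℝ) : sol V a b E 1 = b := rfl

theorem sol_isSol (V : ℤ → ℝ) (a b E : ℝ) : IsSol V E (sol V a b E) := by
  intro n
  rcases Int.lt_trichotomy n 0 with h | h | h
  · obtain ⟨m, rfl⟩ : ∃ m : ℕ, n = -((m + 1 : ℕ) : ℤ) := ⟨(-n - 1).toNat, by omega⟩
    have e1 : -((m + 1 : ℕ) : ℤ) + 1 = -(m : ℤ) := by push_cast; ring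
    have e2 : -((m + 1 : ℕ) : ℤ) - 1 = -((m + 1 + 1 : ℕ) : ℤ) := by push_cast; ring
    rw [e1, e2, sol_neg_natCast, sol_neg_natCast, sol_neg_natCast]
    simp only [bwd]
    push_cast
    ring
  · subst h
    have e2 : (0 : ℤ) - 1 = -((1 : ℕ) : ℤ) := by norm_num
    rw [e2, sol_neg_natCast, zero_add, sol_one, sol_zero]
    simp only [bwd]
    push_cast
    ring_nf
  · obtain ⟨m, rfl⟩ : ∃ m : ℕ, n = ((m + 1 : ℕ) : ℤ) := ⟨(n - 1).toNat, by omega⟩
    have e1 : ((m + 1 : ℕ) : ℤ) + 1 = ((m + 1 + 1 : ℕ) : ℤ) := by push_cast; ring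
    have e2 : ((m + 1 : ℕ) : ℤ) - 1 = (m : ℤ) := by push_cast; ring
    rw [e1, e2, sol_natCast, sol_natCast, sol_natCast]
    simp only [fwd]
    push_cast
    ring

theorem continuous_fwd (V : ℤ → ℝ) (a b : ℝ) (n : ℕ) : Continuous (fun E => fwd V a b E n) := by
  induction n with
  | zero => exact continuous_const
  | succ n ih =>
    simp only [fwd]
    fun_prop

theorem continuous_bwd (V : ℤ → ℝ) (a b : ℝ) (n : ℕ) : Continuous (fun E => bwd V a b E n) := by
  induction n with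
  | zero => exact continuous_const
  | succ n ih =>
    simp only [bwd]
    fun_prop

theorem continuous_sol (V : ℤ → ℝ) (a b : ℝ) (n : ℤ) : Continuous (fun E => sol V a b E n) := by
  rcases Int.eq_nat_or_neg n with ⟨m, rfl | rfl⟩
  · simp only [sol_natCast]
    exact (continuous_fwd V a b m).fst
  · simp only [sol_neg_natCast]
    exact (continuous_bwd V a b m).fst

theorem sol_unique_zero (V : ℤ → ℝ) (E : ℝ) (u : ℤ → ℝ) (hu : IsSol V E u) (h0 : u 0 = 0)
    (h1 : u 1 = 0) : ∀ n, u n = 0 := by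
  have hf : ∀ m : ℕ, u (m : ℤ) = 0 ∧ u ((m : ℤ) + 1) = 0 := by
    intro m
    induction m with
    | zero => exact ⟨by simpa using h0, by simpa using h1⟩
    | succ m ih =>
      refine ⟨by push_cast; exact ih.2, ?_⟩
      have := hu ((m : ℤ) + 1)
      rw [add_sub_cancel_right, ih.1, ih.2] at this
      push_cast
      linarith
  have hb : ∀ m : ℕ, u (-(m : ℤ)) = 0 ∧ u (-(m : ℤ) + 1) = 0 := by
    intro m
    induction m with
    | zero => exact ⟨by simpa using h0, by simpa using h1⟩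
    | succ m ih =>
      have e1 : (-((m + 1 : ℕ) : ℤ)) + 1 = -(m : ℤ) := by push_cast; ring
      refine ⟨?_, by rw [e1]; exact ih.1⟩
      have := hu (-(m : ℤ))
      rw [ih.1, ih.2] at this
      have e2 : -(m : ℤ) - 1 = -((m + 1 : ℕ) : ℤ) := by push_cast; ring
      rw [e2] at this
      linarith
  intro n
  rcases Int.eq_nat_or_neg n with ⟨m, rfl | rfl⟩
  · exact (hf m).1
  · exact (hb m).1

theorem IsSol.lin {V : ℤ → ℝ} {E : ℝ} {u v : ℤ → ℝ} (hu : IsSol V E u) (hv : IsSol V E v)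
    (a b : ℝ) : IsSol V E (fun n => a * u n + b * v n) := by
  intro n
  have h1 := hu n
  have h2 := hv n
  linear_combination a * h1 + b * h2

theorem IsSol.shift {V : ℤ → ℝ} {E : ℝ} {u : ℤ → ℝ} (hu : IsSol V E u) (p : ℤ)
    (hV : ∀ n, V (n + p) = V n) : IsSol V E (fun n => u (n + p)) := by
  intro n
  have h1 := hu (n + p)
  rw [hV] at h1
  have e1 : n + p + 1 = n + 1 + p := by ring
  have e2 : n + p - 1 = n - 1 + p := by ring
  rw [e1, e2] at h1
  exact h1

/-- Every solution is a combination of the two fundamental ones. -/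
theorem sol_decomp (V : ℤ → ℝ) (E : ℝ) (u : ℤ → ℝ) (hu : IsSol V E u) (n : ℤ) :
    u n = u 0 * sol V 1 0 E n + u 1 * sol V 0 1 E n := by
  have h1 := (sol_isSol V 1 0 E).lin (sol_isSol V 0 1 E) (u 0) (u 1)
  have h2 := hu.lin h1 1 (-1)
  have h3 := sol_unique_zero V E _ h2 (by simp [sol_zero]) (by simp [sol_one]) n
  linarith

theorem wronskian (V : ℤ → ℝ) (E : ℝ) (n : ℤ) :
    sol V 1 0 E n * sol V 0 1 E (n + 1) - sol V 1 0 E (n + 1) * sol V 0 1 E n = 1 := by
  have key : ∀ n : ℤ, sol V 1 0 E n * sol V 0 1 E (n + 1) - sol V 1 0 E (n + 1) * sol V 0 1 E n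
      = sol V 1 0 E (n - 1) * sol V 0 1 E n - sol V 1 0 E n * sol V 0 1 E (n - 1) := by
    intro n
    have h1 := sol_isSol V 1 0 E n
    have h2 := sol_isSol V 0 1 E n
    linear_combination (-sol V 0 1 E n) * h1 + (sol V 1 0 E n) * h2
  induction n using Int.induction_on with
  | zero => simp [sol_zero, sol_one]
  | succ i ih =>
    rw [key (i + 1), add_sub_cancel_right]
    exact ih
  | pred i ih =>
    have := key (-(i : ℤ))
    rw [ih] at this
    rw [sub_add_cancel]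
    exact this.symm

end Pool.Agent.LimPer
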