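import Mathlib
import Pool.Agent.Lib.MP_b5b0d6_mp.Sol

set_option autoImplicit false

namespace Pool.Agent.LimPer

open Finset
open scoped ComplexConjugate

/-- Bessel inequality for finite families of pairwise orthogonal vectors on a finite window. -/
theorem bessel_window (W : Finset ℤ) (s : Finset ℝ) (b : ℝ → ℤ → ℂ) (N : ℝ → ℝ)
    (hN : ∀ E ∈ s, N E = ∑ n ∈ W, ‖b E n‖ ^ 2) (hpos : ∀ E ∈ s, 0 < N E)
    (horth : ∀ E ∈ s, ∀ E' ∈ s, E ≠ E' → ∑ n ∈ W, b E n * conj (b E' n) = 0)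
    (ψ : ℤ → ℝ) :
    ∑ E ∈ s, ‖∑ n ∈ W, (ψ n : ℂ) * b E n‖ ^ 2 / N E ≤ ∑ n ∈ W, ψ n ^ 2 := by
  classical
  let v : s → EuclideanSpace ℂ W := fun E =>
    WithLp.toLp 2 (fun n : W => ((Real.sqrt (N E))⁻¹ : ℂ) * b E n)
  let x : EuclideanSpace ℂ W := WithLp.toLp 2 (fun n : W => (ψ n : ℂ))
  have hin : ∀ E E' : s, inner ℂ (v E) (v E') =
      ((Real.sqrt (N E))⁻¹ : ℂ) * ((Real.sqrt (N E'))⁻¹ : ℂ) *
        ∑ n ∈ W, b E' n * conj (b E n) := by
    intro E E'
    rw [PiLp.inner_apply, Finset.mul_sum, ← Finset.sum_coe_sort W]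
    apply Finset.sum_congr rfl
    intro n _
    simp only [v, RCLike.inner_apply, map_mul, map_inv₀, Complex.conj_ofReal]
    ring
  have hv : Orthonormal ℂ v := by
    rw [orthonormal_iff_ite]
    intro E E'
    by_cases h : E = E'
    · subst h
      rw [if_pos rfl, hin]
      have h1 : ∑ n ∈ W, b E n * conj (b E n) = ((N E : ℝ) : ℂ) := by
        rw [hN E E.2]
        push_cast
        apply Finset.sum_congr rfl
        intro n _
        rw [Complex.mul_conj, Complex.normSq_eq_norm_sq]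
        push_cast
        rfl
      rw [h1]
      have h2 : 0 < N E := hpos E E.2
      have h3 : (Real.sqrt (N E))⁻¹ * (Real.sqrt (N E))⁻¹ * N E = 1 := by
        rw [← mul_inv, Real.mul_self_sqrt h2.le]
        exact inv_mul_cancel₀ h2.ne'
      exact_mod_cast h3
    · rw [if_neg h, hin, horth E' E'.2 E E.2 (fun h' => h (Subtype.ext h'.symm)), mul_zero]
  have hB := hv.sum_inner_products_le x (s := Finset.univ)
  have hx : ‖x‖ ^ 2 = ∑ n ∈ W, ψ n ^ 2 := by
    rw [EuclideanSpace.norm_sq_eq, ← Finset.sum_coe_sort W]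
    apply Finset.sum_congr rfl
    intro n _
    simp only [x, Complex.norm_real, Real.norm_eq_abs, sq_abs]
  rw [hx] at hB
  refine le_trans (le_of_eq ?_) hB
  rw [← Finset.sum_coe_sort s]
  apply Finset.sum_congr rfl
  intro E _
  have h2 : 0 < N E := hpos E E.2
  have e1 : inner ℂ (v E) x = ((Real.sqrt (N E))⁻¹ : ℂ) *
      conj (∑ n ∈ W, (ψ n : ℂ) * b E n) := by
    rw [PiLp.inner_apply, map_sum, Finset.mul_sum, ← Finset.sum_coe_sort W]
    apply Finset.sum_congr rfl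
    intro n _
    simp only [v, x, RCLike.inner_apply, map_mul, map_inv₀, Complex.conj_ofReal]
    ring
  rw [e1, norm_mul, RCLike.norm_conj, mul_pow]
  have e2 : ‖((Real.sqrt (N E))⁻¹ : ℂ)‖ ^ 2 = (N E)⁻¹ := by
    rw [norm_inv, Complex.norm_real, Real.norm_eq_abs, abs_of_nonneg (Real.sqrt_nonneg _),
      inv_pow, Real.sq_sqrt h2.le]
  rw [e2]
  ring

/-- Complex-valued solutions. -/
def IsSolC (V : ℤ → ℝ) (E : ℝ) (u : ℤ → ℂ) : Prop :=
  ∀ n : ℤ, u (n + 1) + u (n - 1) + (V n : ℂ) * u n = (E : ℂ) * u n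

/-- Wronskian-type expression. -/
noncomputable def wr (u v : ℤ → ℂ) (n : ℤ) : ℂ := u (n + 1) * v n - u n * v (n + 1)

theorem green_step (V : ℤ → ℝ) (E E' : ℝ) (u v : ℤ → ℂ) (hu : IsSolC V E u) (hv : IsSolC V E' v)
    (n : ℤ) : ((E : ℂ) - E') * (u n * v n) = wr u v n - wr u v (n - 1) := by
  have h1 := hu n
  have h2 := hv n
  simp only [wr, sub_add_cancel]
  linear_combination (-v n) * h1 + (u n) * h2

theorem green_sum (V : ℤ → ℝ) (E E' : ℝ) (u v : ℤ → ℂ) (hu : IsSolC V E u) (hv : IsSolC V E' v)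
    (a : ℤ) (p : ℕ) : ((E : ℂ) - E') * ∑ n ∈ Finset.Ico a (a + p), u n * v n
      = wr u v (a + p - 1) - wr u v (a - 1) := by
  induction p with
  | zero => simp
  | succ p ih =>
    have : Finset.Ico a (a + ((p + 1 : ℕ) : ℤ)) = insert (a + p) (Finset.Ico a (a + p)) := by
      ext x
      simp only [Finset.mem_Ico, Finset.mem_insert]
      push_cast
      omega
    rw [this, Finset.sum_insert (by simp), mul_add, ih, green_step V E E' u v hu hv]
    push_cast
    ring_nf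

theorem IsSolC.conj {V : ℤ → ℝ} {E : ℝ} {u : ℤ → ℂ} (hu : IsSolC V E u) :
    IsSolC V E (fun n => conj (u n)) := by
  intro n
  have := congrArg conj (hu n)
  simpa using this

end Pool.Agent.LimPer
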