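import Mathlib
import Pool.Agent.Lib.MP_b5b0d6_mp.Bessel

set_option autoImplicit false

namespace Pool.Agent.LimPer

open Finset Filter Topology
open scoped ComplexConjugate

/-- The discriminant of the `p`-periodic problem. -/
noncomputable def disc (V : ℤ → ℝ) (p : ℕ) (E : ℝ) : ℝ :=
  sol V 1 0 E p + sol V 0 1 E (p + 1)

/-- The Floquet multiplier. -/
noncomputable def zet (V : ℤ → ℝ) (p : ℕ) (E : ℝ) : ℂ :=
  ⟨disc V p E / 2, Real.sqrt (1 - (disc V p E / 2) ^ 2)⟩

/-- The Bloch wave. -/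
noncomputable def blo (V : ℤ → ℝ) (p : ℕ) (E : ℝ) (n : ℤ) : ℂ :=
  (sol V 0 1 E p : ℂ) * (sol V 1 0 E n : ℂ) +
    (zet V p E - (sol V 1 0 E p : ℂ)) * (sol V 0 1 E n : ℂ)

variable {V : ℤ → ℝ} {p : ℕ} {E : ℝ}

theorem continuous_disc : Continuous (disc V p) :=
  (continuous_sol V 1 0 p).add (continuous_sol V 0 1 (p + 1))

theorem continuous_zet : Continuous (zet V p) := by
  have h1 : Continuous (fun E => ((disc V p E / 2 : ℝ) : ℂ) +
      ((Real.sqrt (1 - (disc V p E / 2) ^ 2) : ℝ) : ℂ) * Complex.I) := by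
    have := continuous_disc (V := V) (p := p)
    fun_prop
  have h2 : zet V p = (fun E => ((disc V p E / 2 : ℝ) : ℂ) +
      ((Real.sqrt (1 - (disc V p E / 2) ^ 2) : ℝ) : ℂ) * Complex.I) := by
    funext E
    apply Complex.ext <;> simp [zet]
  rw [h2]
  exact h1

theorem continuous_blo (n : ℤ) : Continuous (fun E => blo V p E n) := by
  have h1 := continuous_sol V 0 1 p
  have h2 := continuous_sol V 1 0 n
  have h3 := continuous_sol V 1 0 p
  have h4 := continuous_sol V 0 1 n
  have h5 := continuous_zet (V := V) (p := p)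
  simp only [blo]
  fun_prop

theorem one_sub_pos (h : |disc V p E| < 2) : 0 < 1 - (disc V p E / 2) ^ 2 := by
  have := abs_lt.mp h
  nlinarith

theorem zet_normSq (h : |disc V p E| < 2) : zet V p E * conj (zet V p E) = 1 := by
  rw [Complex.mul_conj, zet, Complex.normSq_mk, Real.mul_self_sqrt (one_sub_pos h).le]
  simp; ring

theorem zet_im_pos (h : |disc V p E| < 2) : 0 < (zet V p E).im := by
  simp only [zet]
  exact Real.sqrt_pos.mpr (one_sub_pos h)

theorem zet_sq (h : |disc V p E| < 2) :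
    zet V p E ^ 2 = (disc V p E : ℂ) * zet V p E - 1 := by
  have h1 := zet_normSq h
  have h2 : zet V p E + conj (zet V p E) = (disc V p E : ℂ) := by
    rw [Complex.add_conj]
    simp [zet]
    ring
  linear_combination zet V p E * h2 - h1

theorem be_ne_zero (h : |disc V p E| < 2) : sol V 0 1 E p ≠ 0 := by
  intro h0
  have hw := wronskian V E p
  rw [h0, mul_zero, sub_zero] at hw
  have h1 : (disc V p E) ^ 2 = (sol V 1 0 E p - sol V 0 1 E (p + 1)) ^ 2 + 4 := by
    rw [disc]
    linear_combination 4 * hw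
  have h2 := abs_lt.mp h
  nlinarith [sq_nonneg (sol V 1 0 E p - sol V 0 1 E (p + 1))]

theorem blo_isSol : IsSolC V E (blo V p E) := by
  intro n
  have h1 : (sol V 1 0 E (n + 1) : ℂ) + (sol V 1 0 E (n - 1) : ℂ) + (V n : ℂ) * (sol V 1 0 E n : ℂ)
      = (E : ℂ) * (sol V 1 0 E n : ℂ) := by exact_mod_cast sol_isSol V 1 0 E n
  have h2 : (sol V 0 1 E (n + 1) : ℂ) + (sol V 0 1 E (n - 1) : ℂ) + (V n : ℂ) * (sol V 0 1 E n : ℂ)
      = (E : ℂ) * (sol V 0 1 E n : ℂ) := by exact_mod_cast sol_isSol V 0 1 E n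
  simp only [blo]
  linear_combination (sol V 0 1 E p : ℂ) * h1 + (zet V p E - (sol V 1 0 E p : ℂ)) * h2

theorem blo_zero : blo V p E 0 = (sol V 0 1 E p : ℂ) := by
  simp [blo, sol_zero]

theorem blo_one : blo V p E 1 = zet V p E - (sol V 1 0 E p : ℂ) := by
  simp [blo, sol_one]

theorem sol_shift (hV : ∀ n, V (n + p) = V n) (a b : ℝ) (n : ℤ) :
    sol V a b E (n + p) = sol V a b E p * sol V 1 0 E n + sol V a b E (p + 1) * sol V 0 1 E n := by
  have h := sol_decomp V E _ ((sol_isSol V a b E).shift p hV) n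
  rw [zero_add] at h
  rw [h, add_comm (1 : ℤ) (p : ℤ)]

theorem blo_shift (hV : ∀ n, V (n + p) = V n) (h : |disc V p E| < 2) (n : ℤ) :
    blo V p E (n + p) = zet V p E * blo V p E n := by
  have h1 : (sol V 1 0 E (n + p) : ℂ) = (sol V 1 0 E p : ℂ) * (sol V 1 0 E n : ℂ) +
      (sol V 1 0 E (p + 1) : ℂ) * (sol V 0 1 E n : ℂ) := by exact_mod_cast sol_shift hV 1 0 n
  have h2 : (sol V 0 1 E (n + p) : ℂ) = (sol V 0 1 E p : ℂ) * (sol V 1 0 E n : ℂ) +
      (sol V 0 1 E (p + 1) : ℂ) * (sol V 0 1 E n : ℂ) := by exact_mod_cast sol_shift hV 0 1 n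
  have hw : (sol V 1 0 E p : ℂ) * (sol V 0 1 E (p + 1) : ℂ) -
      (sol V 1 0 E (p + 1) : ℂ) * (sol V 0 1 E p : ℂ) = 1 := by exact_mod_cast wronskian V E p
  have hz := zet_sq h
  have hd : (disc V p E : ℂ) = (sol V 1 0 E p : ℂ) + (sol V 0 1 E (p + 1) : ℂ) := by
    simp [disc]
  rw [hd] at hz
  simp only [blo]
  rw [h1, h2]
  linear_combination (-(sol V 0 1 E n : ℂ)) * hw - (sol V 0 1 E n : ℂ) * hz

theorem wr_shift (hV : ∀ n, V (n + p) = V n) {E' : ℝ} (h : |disc V p E| < 2)
    (h' : |disc V p E'| < 2) (n : ℤ) :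
    wr (blo V p E) (fun m => conj (blo V p E' m)) (n + p) =
      zet V p E * conj (zet V p E') * wr (blo V p E) (fun m => conj (blo V p E' m)) n := by
  simp only [wr]
  have e : n + (p : ℤ) + 1 = (n + 1) + p := by ring
  rw [e, blo_shift hV h, blo_shift hV h, blo_shift hV h', blo_shift hV h']
  simp only [map_mul]
  ring

theorem green_blo (hV : ∀ n, V (n + p) = V n) {E' : ℝ} (h : |disc V p E| < 2)
    (h' : |disc V p E'| < 2) (a : ℤ) :
    ((E : ℂ) - E') * ∑ n ∈ Finset.Ico a (a + p), blo V p E n * conj (blo V p E' n)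
      = (zet V p E * conj (zet V p E') - 1) *
        wr (blo V p E) (fun m => conj (blo V p E' m)) (a - 1) := by
  rw [green_sum V E E' _ _ blo_isSol (blo_isSol.conj) a p]
  have e : a + (p : ℤ) - 1 = (a - 1) + p := by ring
  rw [e, wr_shift hV h h']
  ring

theorem wr_self (n : ℤ) : wr (blo V p E) (fun m => conj (blo V p E m)) n =
    2 * Complex.I * (sol V 0 1 E p : ℂ) * ((zet V p E).im : ℂ) := by
  have step : ∀ n : ℤ, wr (blo V p E) (fun m => conj (blo V p E m)) n =
      wr (blo V p E) (fun m => conj (blo V p E m)) (n - 1) := by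
    intro n
    have := green_step V E E _ _ (blo_isSol (V := V) (p := p) (E := E))
      (blo_isSol (V := V) (p := p) (E := E)).conj n
    rw [sub_self, zero_mul] at this
    exact (sub_eq_zero.mp this.symm)
  have h0 : wr (blo V p E) (fun m => conj (blo V p E m)) 0 =
    2 * Complex.I * (sol V 0 1 E p : ℂ) * ((zet V p E).im : ℂ) := by
    simp only [wr, zero_add, blo_zero, blo_one, map_sub, Complex.conj_ofReal]
    have : zet V p E - conj (zet V p E) = 2 * Complex.I * ((zet V p E).im : ℂ) := by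
      rw [Complex.sub_conj]
      push_cast
      ring
    linear_combination (sol V 0 1 E p : ℂ) * this
  induction n using Int.induction_on with
  | zero => exact h0
  | succ i ih =>
    rw [step (i + 1), add_sub_cancel_right]
    exact ih
  | pred i ih =>
    rw [← step (-(i : ℤ))]
    exact ih

/-- The squared norm of the Bloch wave over a window. -/
noncomputable def blN (V : ℤ → ℝ) (p : ℕ) (a : ℤ) (E : ℝ) : ℝ :=
  ∑ n ∈ Finset.Ico a (a + p), ‖blo V p E n‖ ^ 2

theorem wr_self_ne_zero (h : |disc V p E| < 2) (n : ℤ) :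
    wr (blo V p E) (fun m => conj (blo V p E m)) n ≠ 0 := by
  rw [wr_self]
  have h1 : (sol V 0 1 E p : ℂ) ≠ 0 := by exact_mod_cast be_ne_zero h
  have h2 : ((zet V p E).im : ℂ) ≠ 0 := by exact_mod_cast (zet_im_pos h).ne'
  simp [h1, h2]

theorem blN_pos (hp : 2 ≤ p) (h : |disc V p E| < 2) (a : ℤ) : 0 < blN V p a E := by
  have hne := wr_self_ne_zero h a
  by_contra hcon
  have hzero : blN V p a E = 0 :=
    le_antisymm (not_lt.mp hcon) (Finset.sum_nonneg fun _ _ => by positivity)
  rw [blN, Finset.sum_eq_zero_iff_of_nonneg (fun _ _ => by positivity)] at hzero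
  have h0 : blo V p E a = 0 := by
    have := hzero a (by rw [Finset.mem_Ico]; omega)
    simpa using this
  have h1 : blo V p E (a + 1) = 0 := by
    have := hzero (a + 1) (by rw [Finset.mem_Ico]; omega)
    simpa using this
  apply hne
  simp [wr, h0, h1]

theorem blN_eq (a : ℤ) : ((blN V p a E : ℝ) : ℂ) =
    ∑ n ∈ Finset.Ico a (a + p), blo V p E n * conj (blo V p E n) := by
  rw [blN]
  push_cast
  apply Finset.sum_congr rfl
  intro n _
  rw [Complex.mul_conj, Complex.normSq_eq_norm_sq]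
  push_cast
  rfl

theorem hasDerivAt_disc (hV : ∀ n, V (n + p) = V n) (h : |disc V p E| < 2) (a : ℤ) :
    HasDerivAt (disc V p) (blN V p a E / sol V 0 1 E p) E := by
  -- abbreviations
  set G : ℝ → ℂ := fun x => ∑ n ∈ Finset.Ico a (a + p), blo V p x n * conj (blo V p E n) with hG
  set Wr : ℝ → ℂ := fun x => wr (blo V p x) (fun m => conj (blo V p E m)) (a - 1) with hWr
  have hGc : Continuous G := by
    apply continuous_finsetSum
    intro n _
    exact (continuous_blo n).mul continuous_const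
  have hWc : Continuous Wr := by
    simp only [hWr, wr]
    exact ((continuous_blo _).mul continuous_const).sub ((continuous_blo _).mul continuous_const)
  have hW0 : Wr E ≠ 0 := wr_self_ne_zero h (a - 1)
  have hev1 : ∀ᶠ x in 𝓝 E, |disc V p x| < 2 :=
    (continuous_disc.abs.continuousAt).eventually (gt_mem_nhds h)
  have hev2 : ∀ᶠ x in 𝓝 E, Wr x ≠ 0 := hWc.continuousAt.eventually_ne hW0
  have key : HasDerivAt (zet V p) (zet V p E * (G E / Wr E)) E := by
    rw [hasDerivAt_iff_tendsto_slope]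
    have hlim : Tendsto (fun x => zet V p E * (G x / Wr x)) (𝓝[≠] E)
        (𝓝 (zet V p E * (G E / Wr E))) := by
      apply Tendsto.mono_left _ nhdsWithin_le_nhds
      exact (tendsto_const_nhds.mul ((hGc.tendsto E).div (hWc.tendsto E) hW0))
    apply hlim.congr'
    have hev : ∀ᶠ x in 𝓝[≠] E, |disc V p x| < 2 ∧ Wr x ≠ 0 ∧ x ≠ E := by
      filter_upwards [hev1.filter_mono nhdsWithin_le_nhds, hev2.filter_mono nhdsWithin_le_nhds,
        self_mem_nhdsWithin] with x h1 h2 h3
      exact ⟨h1, h2, h3⟩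
    filter_upwards [hev] with x hx
    obtain ⟨hx1, hx2, hx3⟩ := hx
    have hg := green_blo hV hx1 h a
    have hxE : ((x : ℂ) - E) ≠ 0 := by
      rw [sub_ne_zero]
      exact_mod_cast hx3
    have hz := zet_normSq h
    rw [slope_def_module]
    have e1 : (x - E)⁻¹ • (zet V p x - zet V p E) = ((x : ℂ) - E)⁻¹ * (zet V p x - zet V p E) := by
      rw [← Complex.coe_smul, smul_eq_mul]
      push_cast
      rfl
    rw [e1]
    have e2 : zet V p x - zet V p E = zet V p E * (zet V p x * conj (zet V p E) - 1) := by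
      linear_combination (-(zet V p x)) * hz
    rw [e2]
    have hg' : ((x : ℂ) - E) * G x = (zet V p x * conj (zet V p E) - 1) * Wr x := hg
    have e3 : zet V p x * conj (zet V p E) - 1 = ((x : ℂ) - E) * (G x / Wr x) := by
      field_simp
      linear_combination (-1 : ℂ) * hg'
    rw [e3]
    field_simp
  have hre : HasDerivAt (fun x => (zet V p x).re) ((zet V p E * (G E / Wr E)).re) E :=
    (Complex.reCLM.hasFDerivAt.comp_hasDerivAt E key)
  have e4 : (fun x => (zet V p x).re) = fun x => disc V p x / 2 := rfl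
  rw [e4] at hre
  have e5 : (zet V p E * (G E / Wr E)).re = blN V p a E / (2 * sol V 0 1 E p) := by
    have hb : sol V 0 1 E p ≠ 0 := be_ne_zero h
    have hs : (zet V p E).im ≠ 0 := (zet_im_pos h).ne'
    have e6 : G E = ((blN V p a E : ℝ) : ℂ) := by rw [blN_eq]
    have e7 : Wr E = 2 * Complex.I * (sol V 0 1 E p : ℂ) * ((zet V p E).im : ℂ) := wr_self _
    rw [e6, e7]
    have e8 : zet V p E * (((blN V p a E : ℝ) : ℂ) /
        (2 * Complex.I * (sol V 0 1 E p : ℂ) * ((zet V p E).im : ℂ))) =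
        ((blN V p a E / (2 * sol V 0 1 E p * (zet V p E).im) : ℝ) : ℂ) *
          (-Complex.I * zet V p E) := by
      have hb' : (sol V 0 1 E p : ℂ) ≠ 0 := by exact_mod_cast hb
      have hs' : ((zet V p E).im : ℂ) ≠ 0 := by exact_mod_cast hs
      push_cast
      field_simp
      rw [Complex.I_sq]
      ring
    rw [e8, Complex.re_ofReal_mul]
    have e9 : (-Complex.I * zet V p E).re = (zet V p E).im := by simp
    rw [e9]
    field_simp
  rw [e5] at hre
  have := hre.mul_const 2
  have e10 : (fun x => disc V p x / 2 * 2) = disc V p := by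
    funext x
    ring
  rw [e10] at this
  have hb : sol V 0 1 E p ≠ 0 := be_ne_zero h
  have e11 : blN V p a E / sol V 0 1 E p = blN V p a E / (2 * sol V 0 1 E p) * 2 := by
    field_simp
  rw [e11]
  exact this

end Pool.Agent.LimPer
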