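import Mathlib
import Pool.Agent.Lib.MP_b5b0d6_mp.Bloch
import Pool.Agent.Lib.MP_b5b0d6_mp.Area

set_option autoImplicit false

namespace Pool.Agent.LimPer

open Finset Filter Topology MeasureTheory Polynomial
open scoped ComplexConjugate ENNReal

theorem opF_pow_support (V : ℤ → ℝ) (i : ℤ) (m : ℕ) (n : ℤ)
    (h : ((opF V ^ m) (Finsupp.single i 1)) n ≠ 0) : i - m ≤ n ∧ n ≤ i + m := by
  induction m generalizing n with
  | zero =>
    simp only [pow_zero, Module.End.one_apply] at h
    have : n = i := by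
      by_contra hne
      exact h (by simp [Ne.symm hne])
    subst this
    simp
  | succ m ih =>
    rw [pow_succ', Module.End.mul_apply, opF_apply] at h
    by_contra hcon
    apply h
    have h1 : ((opF V ^ m) (Finsupp.single i 1)) (n + 1) = 0 := by
      by_contra h1
      have := ih _ h1
      push_cast at hcon
      omega
    have h2 : ((opF V ^ m) (Finsupp.single i 1)) (n - 1) = 0 := by
      by_contra h1
      have := ih _ h1
      push_cast at hcon
      omega
    have h3 : ((opF V ^ m) (Finsupp.single i 1)) n = 0 := by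
      by_contra h1
      have := ih _ h1
      push_cast at hcon
      omega
    rw [h1, h2, h3]
    simp

theorem vec_support (V : ℤ → ℝ) (q : ℝ[X]) (i : ℤ) :
    (vec V q i).support ⊆ Finset.Icc (i - q.natDegree) (i + q.natDegree) := by
  intro n hn
  rw [Finsupp.mem_support_iff] at hn
  rw [Finset.mem_Icc]
  by_contra hcon
  apply hn
  rw [vec, Polynomial.aeval_eq_sum_range, LinearMap.sum_apply, Finsupp.finsetSum_apply]
  apply Finset.sum_eq_zero
  intro m hm
  rw [Finset.mem_range] at hm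
  rw [LinearMap.smul_apply, Finsupp.smul_apply]
  by_contra h1
  have h2 : ((opF V ^ m) (Finsupp.single i 1)) n ≠ 0 := by
    intro h3
    apply h1
    rw [h3, smul_zero]
  have := opF_pow_support V i m n h2
  omega

theorem op_blo (V : ℤ → ℝ) (p : ℕ) (E : ℝ) : op V (blo V p E) = E • blo V p E := by
  funext n
  rw [op_apply, Pi.smul_apply, Complex.real_smul, Complex.real_smul]
  exact blo_isSol n

theorem pair_blo (V : ℤ → ℝ) (p : ℕ) (E : ℝ) (q : ℝ[X]) (i : ℤ) :
    pair (blo V p E) (vec V q i) = ((q.eval E : ℝ) : ℂ) * blo V p E i := by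
  rw [vec, pair_aeval, aeval_eigen V _ E (op_blo V p E), pair_single, one_smul, Pi.smul_apply,
    Complex.real_smul]

/-- The spectrum (interior) of the periodic operator. -/
def spec (V : ℤ → ℝ) (p : ℕ) : Set ℝ := {E | |disc V p E| < 2}

theorem isOpen_spec (V : ℤ → ℝ) (p : ℕ) : IsOpen (spec V p) :=
  isOpen_lt (continuous_disc.abs) continuous_const

theorem ac_ineq (V : ℤ → ℝ) (p : ℕ) (hV : ∀ n, V (n + p) = V n) (q : ℝ[X])
    (hd : 2 * q.natDegree + 2 ≤ p) :
    ∫⁻ E in spec V p, ENNReal.ofReal ((q.eval E) ^ 2) ≤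
      ENNReal.ofReal (nsq (vec V q 0) + nsq (vec V q 1)) * ENNReal.ofReal Real.pi := by
  have hp : 2 ≤ p := by omega
  set a : ℤ := -(q.natDegree : ℤ) with ha
  set W : Finset ℤ := Finset.Ico a (a + p) with hW
  have hs0 : (vec V q 0).support ⊆ W := by
    refine (vec_support V q 0).trans ?_
    intro n hn
    rw [Finset.mem_Icc] at hn
    rw [hW, Finset.mem_Ico]
    omega
  have hs1 : (vec V q 1).support ⊆ W := by
    refine (vec_support V q 1).trans ?_
    intro n hn
    rw [Finset.mem_Icc] at hn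
    rw [hW, Finset.mem_Ico]
    omega
  let θ : ℝ → ℝ := fun E => Real.arccos (disc V p E / 2)
  let θ' : ℝ → ℝ := fun E => -(1 / Real.sqrt (1 - (disc V p E / 2) ^ 2)) *
    (blN V p a E / sol V 0 1 E p / 2)
  let F : ℝ → ℝ := fun E => ‖pair (blo V p E) (vec V q 0)‖ ^ 2 / blN V p a E +
    ‖pair (blo V p E) (vec V q 1)‖ ^ 2 / blN V p a E
  have hmem : ∀ E ∈ spec V p, -1 < disc V p E / 2 ∧ disc V p E / 2 < 1 := by
    intro E hE
    have := abs_lt.mp (show |disc V p E| < 2 from hE)
    constructor <;> linarith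
  have hder : ∀ E ∈ spec V p, HasDerivAt θ (θ' E) E := by
    intro E hE
    obtain ⟨h1, h2⟩ := hmem E hE
    have h3 := (hasDerivAt_disc hV hE a).div_const 2
    exact HasDerivAt.comp (h₂ := Real.arccos) (h := fun x => disc V p x / 2) E
      (Real.hasDerivAt_arccos h1.ne' h2.ne) h3
  have hθ'abs : ∀ E ∈ spec V p, |θ' E| = blN V p a E / (2 * |sol V 0 1 E p| * (zet V p E).im) := by
    intro E hE
    have h1 : 0 < blN V p a E := blN_pos hp hE a
    have h2 : 0 < (zet V p E).im := zet_im_pos hE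
    have h3 : (zet V p E).im = Real.sqrt (1 - (disc V p E / 2) ^ 2) := rfl
    have h4 : 0 < |sol V 0 1 E p| := abs_pos.mpr (be_ne_zero hE)
    simp only [θ']
    rw [← h3, abs_mul, abs_neg, abs_div, abs_one, abs_of_pos h2, abs_div, abs_div, abs_of_pos h1,
      abs_of_pos (by norm_num : (0:ℝ) < 2)]
    field_simp
  have hne : ∀ E ∈ spec V p, θ' E ≠ 0 := by
    intro E hE
    rw [← abs_pos, hθ'abs E hE]
    have h1 : 0 < blN V p a E := blN_pos hp hE a
    have h2 : 0 < (zet V p E).im := zet_im_pos hE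
    have h4 : 0 < |sol V 0 1 E p| := abs_pos.mpr (be_ne_zero hE)
    positivity
  have hST : ∀ E ∈ spec V p, θ E ∈ Set.Ioo 0 Real.pi := by
    intro E hE
    obtain ⟨h1, h2⟩ := hmem E hE
    refine ⟨Real.arccos_pos.mpr h2, ?_⟩
    have h3 : Real.arccos (disc V p E / 2) < Real.arccos (-1) :=
      Real.strictAntiOn_arccos (by norm_num) ⟨h1.le, h2.le⟩ h1
    rwa [Real.arccos_neg_one] at h3
  have hfib : ∀ y : ℝ, ∀ s : Finset ℝ, (∀ x ∈ s, x ∈ spec V p ∧ θ x = y) →
      ∑ x ∈ s, ENNReal.ofReal (F x) ≤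
        ENNReal.ofReal (nsq (vec V q 0) + nsq (vec V q 1)) := by
    intro y s hs
    have hFnn : ∀ x ∈ s, 0 ≤ F x := by
      intro x hx
      have h1 : 0 < blN V p a x := blN_pos hp (hs x hx).1 a
      simp only [F]
      positivity
    rw [← ENNReal.ofReal_sum_of_nonneg hFnn]
    apply ENNReal.ofReal_le_ofReal
    have horth : ∀ E ∈ s, ∀ E' ∈ s, E ≠ E' →
        ∑ n ∈ W, blo V p E n * conj (blo V p E' n) = 0 := by
      intro E hE E' hE' hne'
      obtain ⟨hE1, hE2⟩ := hs E hE
      obtain ⟨hE1', hE2'⟩ := hs E' hE'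
      have hdd : disc V p E = disc V p E' := by
        obtain ⟨h1, h2⟩ := hmem E hE1
        obtain ⟨h1', h2'⟩ := hmem E' hE1'
        have := Real.arccos_injOn ⟨h1.le, h2.le⟩ ⟨h1'.le, h2'.le⟩ (hE2.trans hE2'.symm)
        linarith
      have hzz : zet V p E = zet V p E' := by simp only [zet, hdd]
      have hg := green_blo hV hE1 hE1' a
      rw [hzz, zet_normSq hE1', sub_self, zero_mul] at hg
      rcases mul_eq_zero.mp hg with h | h
      · exfalso
        apply hne'
        rw [sub_eq_zero] at h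
        exact_mod_cast h
      · exact h
    have hN : ∀ E ∈ s, blN V p a E = ∑ n ∈ W, ‖blo V p E n‖ ^ 2 := fun E _ => rfl
    have hpos : ∀ E ∈ s, 0 < blN V p a E := fun E hE => blN_pos hp (hs E hE).1 a
    have b0 := bessel_window W s (blo V p) (blN V p a) hN hpos horth (⇑(vec V q 0))
    have b1 := bessel_window W s (blo V p) (blN V p a) hN hpos horth (⇑(vec V q 1))
    simp only [F]
    rw [Finset.sum_add_distrib]
    have e0 : ∀ E, pair (blo V p E) (vec V q 0) = ∑ n ∈ W, (vec V q 0 n : ℂ) * blo V p E n := by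
      intro E
      rw [pair_eq_sum_of_subset _ _ W hs0]
      apply Finset.sum_congr rfl
      intro n _
      rw [Complex.real_smul]
    have e1 : ∀ E, pair (blo V p E) (vec V q 1) = ∑ n ∈ W, (vec V q 1 n : ℂ) * blo V p E n := by
      intro E
      rw [pair_eq_sum_of_subset _ _ W hs1]
      apply Finset.sum_congr rfl
      intro n _
      rw [Complex.real_smul]
    simp only [e0, e1]
    rw [nsq_eq_of_subset _ W hs0, nsq_eq_of_subset _ W hs1]
    exact add_le_add b0 b1
  have hmain := lintegral_fibre_le θ θ' (spec V p) (Set.Ioo 0 Real.pi)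
    (isOpen_spec V p).measurableSet measurableSet_Ioo hder hne hST
    (fun x => ENNReal.ofReal (F x)) _ hfib
  rw [Real.volume_Ioo, sub_zero] at hmain
  refine le_trans ?_ hmain
  apply setLIntegral_mono' (isOpen_spec V p).measurableSet
  intro E hE
  rw [← ENNReal.ofReal_mul (abs_nonneg _)]
  apply ENNReal.ofReal_le_ofReal
  rw [hθ'abs E hE]
  simp only [F]
  rw [pair_blo, pair_blo, blo_zero, blo_one]
  have h1 : 0 < blN V p a E := blN_pos hp hE a
  have h2 : 0 < (zet V p E).im := zet_im_pos hE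
  have h4 : 0 < |sol V 0 1 E p| := abs_pos.mpr (be_ne_zero hE)
  rw [norm_mul, norm_mul, Complex.norm_real, Complex.norm_real, Real.norm_eq_abs,
    Real.norm_eq_abs, mul_pow, mul_pow, sq_abs]
  have h5 : (zet V p E).im ≤ ‖zet V p E - (sol V 1 0 E p : ℂ)‖ := by
    have := Complex.abs_im_le_norm (zet V p E - (sol V 1 0 E p : ℂ))
    rw [Complex.sub_im, Complex.ofReal_im, sub_zero] at this
    exact (le_abs_self _).trans this
  set s := (zet V p E).im
  set β := |sol V 0 1 E p|
  set w := ‖zet V p E - (sol V 1 0 E p : ℂ)‖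
  set N := blN V p a E
  set Q := (q.eval E) ^ 2
  have hQ : 0 ≤ Q := sq_nonneg _
  have e : N / (2 * β * s) * (Q * β ^ 2 / N + Q * w ^ 2 / N) =
      Q * ((β ^ 2 + w ^ 2) / (2 * β * s)) := by
    field_simp
  rw [e]
  have h6 : 1 ≤ (β ^ 2 + w ^ 2) / (2 * β * s) := by
    rw [le_div_iff₀ (by positivity)]
    nlinarith [sq_nonneg (β - s), mul_self_nonneg (w - s)]
  nlinarith

end Pool.Agent.LimPer
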