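import Mathlib
import Pool.Agent.Lib.MP_b5b0d6_mp.AC

set_option autoImplicit false

namespace Pool.Agent.LimPer

open Finset Filter Topology MeasureTheory
open scoped ComplexConjugate ENNReal

section Boole

variable (V : ℤ → ℝ) (p : ℕ) (σ : ℝ)

/-- The solution with value `1` at `0` and `σ` at `p`. -/
noncomputable def vv (E : ℝ) (n : ℤ) : ℝ :=
  sol V 1 0 E n + (σ - sol V 1 0 E p) / sol V 0 1 E p * sol V 0 1 E n

/-- The shift needed to make `E` a (anti)periodic eigenvalue. -/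
noncomputable def ss (E : ℝ) : ℝ := (disc V p E - 2 * σ) / sol V 0 1 E p

theorem vv_isSol (E : ℝ) : IsSol V E (vv V p σ E) := by
  have h := (sol_isSol V 1 0 E).lin (sol_isSol V 0 1 E) 1 ((σ - sol V 1 0 E p) / sol V 0 1 E p)
  have e : vv V p σ E = fun n => 1 * sol V 1 0 E n +
      (σ - sol V 1 0 E p) / sol V 0 1 E p * sol V 0 1 E n := by
    funext n
    simp [vv]
  rw [e]
  exact h

theorem vv_zero (E : ℝ) : vv V p σ E 0 = 1 := by simp [vv, sol_zero]

theorem vv_p (E : ℝ) (h : sol V 0 1 E p ≠ 0) : vv V p σ E p = σ := by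
  simp only [vv]
  field_simp
  ring

theorem vv_rel (hV : ∀ n, V (n + p) = V n) (hσ : σ ^ 2 = 1) (E : ℝ) (h : sol V 0 1 E p ≠ 0) :
    vv V p σ E (-1) - σ * vv V p σ E (p - 1) = ss V p σ E := by
  have h1 := vv_isSol V p σ E 0
  have h2 := vv_isSol V p σ E p
  have h3 := vv_p V p σ E h
  have h4 := vv_zero V p σ E
  have h5 : V p = V 0 := by simpa using hV 0
  have h6 : vv V p σ E 1 = (σ - sol V 1 0 E p) / sol V 0 1 E p := by
    simp [vv, sol_one]
  have h7 : vv V p σ E (p + 1) = sol V 1 0 E (p + 1) +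
      (σ - sol V 1 0 E p) / sol V 0 1 E p * sol V 0 1 E (p + 1) := rfl
  rw [zero_add, h4, zero_sub, h6] at h1
  rw [h3, h7, h5] at h2
  have e1 : vv V p σ E (-1) = E - V 0 - (σ - sol V 1 0 E p) / sol V 0 1 E p := by linarith
  have e2 : vv V p σ E (p - 1) = (E - V 0) * σ - (sol V 1 0 E (p + 1) +
      (σ - sol V 1 0 E p) / sol V 0 1 E p * sol V 0 1 E (p + 1)) := by linarith
  have hw := wronskian V E p
  rw [e1, e2, ss, disc]
  field_simp
  have hw' : sol V 1 0 E (p + 1) * sol V 0 1 E p = sol V 1 0 E p * sol V 0 1 E (p + 1) - 1 := by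
    linarith
  have hσ3 : σ * (sol V 1 0 E (p + 1) * sol V 0 1 E p) =
      σ * (sol V 1 0 E p * sol V 0 1 E (p + 1) - 1) := by rw [hw']
  linear_combination hσ3 + (sol V 0 1 E (p + 1) - (E - V 0) * sol V 0 1 E p) * hσ

theorem green_real (E E' : ℝ) (u v : ℤ → ℝ) (hu : IsSol V E u) (hv : IsSol V E' v)
    (a : ℤ) (q : ℕ) : (E - E') * ∑ n ∈ Finset.Ico a (a + q), u n * v n
      = (u (a + q) * v (a + q - 1) - u (a + q - 1) * v (a + q)) -
        (u a * v (a - 1) - u (a - 1) * v a) := by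
  have huC : IsSolC V E (fun n => (u n : ℂ)) := fun n => by
    have := hu n
    simp only
    exact_mod_cast this
  have hvC : IsSolC V E' (fun n => (v n : ℂ)) := fun n => by
    have := hv n
    simp only
    exact_mod_cast this
  have := green_sum V E E' _ _ huC hvC a q
  simp only [wr, sub_add_cancel] at this
  exact_mod_cast this

theorem vv_green (hV : ∀ n, V (n + p) = V n) (hσ : σ ^ 2 = 1) (E E' : ℝ)
    (h : sol V 0 1 E p ≠ 0) (h' : sol V 0 1 E' p ≠ 0) :
    (E - E') * ∑ n ∈ Finset.Ico (0 : ℤ) (0 + p), vv V p σ E n * vv V p σ E' n =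
      ss V p σ E - ss V p σ E' := by
  rw [green_real V E E' _ _ (vv_isSol V p σ E) (vv_isSol V p σ E') 0 p, zero_add, zero_sub,
    vv_p V p σ E h, vv_p V p σ E' h', vv_zero, vv_zero, ← vv_rel V p σ hV hσ E h,
    ← vv_rel V p σ hV hσ E' h']
  ring

/-- Squared norm of `vv`. -/
noncomputable def vN (E : ℝ) : ℝ := ∑ n ∈ Finset.Ico (0 : ℤ) (0 + p), vv V p σ E n ^ 2

theorem vN_ge_one (hp : 0 < p) (E : ℝ) : 1 ≤ vN V p σ E := by
  have h0 : (0 : ℤ) ∈ Finset.Ico (0 : ℤ) (0 + p) := by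
    rw [Finset.mem_Ico]; omega
  have := Finset.single_le_sum (f := fun n => vv V p σ E n ^ 2) (fun _ _ => sq_nonneg _) h0
  rw [vN]
  simpa [vv_zero] using this

theorem hasDerivAt_ss (hV : ∀ n, V (n + p) = V n) (hσ : σ ^ 2 = 1) (E : ℝ)
    (h : sol V 0 1 E p ≠ 0) : HasDerivAt (ss V p σ) (vN V p σ E) E := by
  have hcont : ∀ n : ℤ, ContinuousAt (fun x => vv V p σ x n) E := by
    intro n
    have h1 := continuous_sol V 0 1 p
    have h2 := continuous_sol V 1 0 n
    have h3 := continuous_sol V 1 0 p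
    have h4 := continuous_sol V 0 1 n
    simp only [vv]
    exact h2.continuousAt.add (((continuousAt_const.sub h3.continuousAt).div
      h1.continuousAt h).mul h4.continuousAt)
  rw [hasDerivAt_iff_tendsto_slope]
  have hG : Tendsto (fun x => ∑ n ∈ Finset.Ico (0 : ℤ) (0 + p), vv V p σ x n * vv V p σ E n)
      (𝓝[≠] E) (𝓝 (vN V p σ E)) := by
    apply Tendsto.mono_left _ nhdsWithin_le_nhds
    rw [vN]
    apply tendsto_finsetSum
    intro n _
    rw [pow_two]
    exact (hcont n).tendsto.mul tendsto_const_nhds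
  apply hG.congr'
  have hev : ∀ᶠ x in 𝓝 E, sol V 0 1 x p ≠ 0 :=
    (continuous_sol V 0 1 p).continuousAt.eventually_ne h
  filter_upwards [hev.filter_mono nhdsWithin_le_nhds, self_mem_nhdsWithin] with x hx hxE
  have hg := vv_green V p σ hV hσ x E hx h
  have hne : x - E ≠ 0 := sub_ne_zero.mpr hxE
  rw [slope_def_field, ← hg]
  field_simp

/-- **Boole's inequality**. -/
theorem boole (hV : ∀ n, V (n + p) = V n) (hp : 0 < p) (hσ : σ ^ 2 = 1) (T : Set ℝ)
    (hT : MeasurableSet T) :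
    volume {E | sol V 0 1 E p ≠ 0 ∧ ss V p σ E ∈ T} ≤ volume T := by
  set S : Set ℝ := {E | sol V 0 1 E p ≠ 0 ∧ ss V p σ E ∈ T} with hSdef
  have hm1 : Measurable (ss V p σ) := by
    have h1 : Measurable (fun E => sol V 0 1 E p) := (continuous_sol V 0 1 p).measurable
    have h2 : Measurable (disc V p) := continuous_disc.measurable
    have : ss V p σ = fun E => (disc V p E - 2 * σ) / sol V 0 1 E p := rfl
    rw [this]
    exact (h2.sub_const _).div h1
  have hSm : MeasurableSet S := by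
    apply MeasurableSet.inter
    · exact (isOpen_ne_fun (continuous_sol V 0 1 p) continuous_const).measurableSet
    · exact hm1 hT
  have hfib : ∀ y : ℝ, ∀ s : Finset ℝ, (∀ x ∈ s, x ∈ S ∧ ss V p σ x = y) →
      ∑ x ∈ s, ENNReal.ofReal (1 / vN V p σ x) ≤ 1 := by
    intro y s hs
    have hpos : ∀ x, 0 < vN V p σ x := fun x => lt_of_lt_of_le one_pos (vN_ge_one V p σ hp x)
    rw [← ENNReal.ofReal_sum_of_nonneg (fun x _ => (one_div_pos.mpr (hpos x)).le)]
    rw [show (1 : ℝ≥0∞) = ENNReal.ofReal 1 by simp]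
    apply ENNReal.ofReal_le_ofReal
    have horth : ∀ E ∈ s, ∀ E' ∈ s, E ≠ E' → ∑ n ∈ Finset.Ico (0 : ℤ) (0 + p),
        (vv V p σ E n : ℂ) * conj (vv V p σ E' n : ℂ) = 0 := by
      intro E hE E' hE' hne
      have hg := vv_green V p σ hV hσ E E' (hs E hE).1.1 (hs E' hE').1.1
      rw [(hs E hE).2, (hs E' hE').2, sub_self] at hg
      rcases mul_eq_zero.mp hg with h | h
      · exact absurd (sub_eq_zero.mp h) hne
      · simp only [Complex.conj_ofReal]
        exact_mod_cast h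
    have hN : ∀ E ∈ s, vN V p σ E =
        ∑ n ∈ Finset.Ico (0 : ℤ) (0 + p), ‖(vv V p σ E n : ℂ)‖ ^ 2 := by
      intro E _
      rw [vN]
      apply Finset.sum_congr rfl
      intro n _
      rw [Complex.norm_real, Real.norm_eq_abs, sq_abs]
    have hB := bessel_window (Finset.Ico (0 : ℤ) (0 + p)) s (fun E n => (vv V p σ E n : ℂ))
      (vN V p σ) hN (fun E _ => hpos E) horth (Pi.single 0 1)
    have h0 : (0 : ℤ) ∈ Finset.Ico (0 : ℤ) (0 + p) := by
      rw [Finset.mem_Ico]; omega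
    have e1 : ∀ E : ℝ, ∑ n ∈ Finset.Ico (0 : ℤ) (0 + p),
        (((Pi.single 0 1 : ℤ → ℝ) n : ℝ) : ℂ) * (vv V p σ E n : ℂ) = 1 := by
      intro E
      rw [Finset.sum_eq_single_of_mem 0 h0]
      · simp [vv_zero]
      · intro b _ hb
        simp [hb]
    have e2 : ∑ n ∈ Finset.Ico (0 : ℤ) (0 + p), (Pi.single 0 1 : ℤ → ℝ) n ^ 2 = 1 := by
      rw [Finset.sum_eq_single_of_mem 0 h0]
      · simp
      · intro b _ hb
        simp [hb]
    simp only [e1, e2] at hB
    simpa using hB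
  have hmain := lintegral_fibre_le (ss V p σ) (vN V p σ) S T hSm hT
    (fun x hx => hasDerivAt_ss V p σ hV hσ x hx.1)
    (fun x _ => (lt_of_lt_of_le one_pos (vN_ge_one V p σ hp x)).ne')
    (fun x hx => hx.2) (fun x => ENNReal.ofReal (1 / vN V p σ x)) 1 hfib
  rw [one_mul] at hmain
  refine le_trans ?_ hmain
  have e3 : ∀ x, ENNReal.ofReal |vN V p σ x| * ENNReal.ofReal (1 / vN V p σ x) = 1 := by
    intro x
    have hpos : 0 < vN V p σ x := lt_of_lt_of_le one_pos (vN_ge_one V p σ hp x)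
    rw [← ENNReal.ofReal_mul (abs_nonneg _), abs_of_pos hpos, mul_one_div_cancel hpos.ne']
    simp
  simp only [e3]
  simp

end Boole

theorem fwd_congr (V V' : ℤ → ℝ) (a b E : ℝ) (p : ℕ)
    (h : ∀ m : ℕ, 1 ≤ m → m < p → V' m = V m) (n : ℕ) (hn : n < p) :
    fwd V' a b E n = fwd V a b E n := by
  induction n with
  | zero => rfl
  | succ n ih =>
    simp only [fwd]
    rw [ih (by omega)]
    have := h (n + 1) (by omega) hn
    push_cast at this
    rw [this]

theorem sol_p_congr (V V' : ℤ → ℝ) (a b E : ℝ) (p : ℕ) (hp : 0 < p)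
    (h : ∀ m : ℕ, 1 ≤ m → m < p → V' m = V m) : sol V' a b E p = sol V a b E p := by
  obtain ⟨m, rfl⟩ : ∃ m, p = m + 1 := ⟨p - 1, by omega⟩
  rw [sol_natCast, sol_natCast]
  simp only [fwd]
  rw [fwd_congr V V' a b E (m + 1) h m (by omega)]

theorem sol_p_pred_congr (V V' : ℤ → ℝ) (a b E : ℝ) (p : ℕ) (hp : 0 < p)
    (h : ∀ m : ℕ, 1 ≤ m → m < p → V' m = V m) : sol V' a b E (p - 1) = sol V a b E (p - 1) := by
  obtain ⟨m, rfl⟩ : ∃ m, p = m + 1 := ⟨p - 1, by omega⟩
  have e : ((m + 1 : ℕ) : ℤ) - 1 = (m : ℤ) := by push_cast; ring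
  rw [e, sol_natCast, sol_natCast, fwd_congr V V' a b E (m + 1) h m (by omega)]

theorem disc_perturb (V V' : ℤ → ℝ) (d : ℝ) (E : ℝ) (p : ℕ) (hp : 0 < p)
    (h : ∀ m : ℕ, 1 ≤ m → m < p → V' m = V m) (hd : V' p = V p + d) :
    disc V' p E = disc V p E - d * sol V 0 1 E p := by
  have h1 := sol_isSol V 0 1 E p
  have h2 := sol_isSol V' 0 1 E p
  rw [sol_p_congr V V' 0 1 E p hp h, sol_p_pred_congr V V' 0 1 E p hp h, hd] at h2
  rw [disc, disc, sol_p_congr V V' 1 0 E p hp h]
  linarith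

theorem disc_double (V : ℤ → ℝ) (p : ℕ) (hV : ∀ n, V (n + p) = V n) (E : ℝ) :
    disc V (2 * p) E = disc V p E ^ 2 - 2 ∧
      sol V 0 1 E ((2 * p : ℕ) : ℤ) = disc V p E * sol V 0 1 E p := by
  have e1 : ((2 * p : ℕ) : ℤ) = (p : ℤ) + p := by push_cast; ring
  have e2 : (p : ℤ) + p + 1 = (p + 1) + p := by ring
  have hw := wronskian V E p
  constructor
  · rw [disc, e1, e2, sol_shift hV, sol_shift hV, disc]
    linear_combination (-2) * hw
  · rw [e1, sol_shift hV, disc]
    ring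

theorem disc_zero_null (V : ℤ → ℝ) (p : ℕ) (hp : 2 ≤ p) (hV : ∀ n, V (n + p) = V n) :
    volume {E | disc V p E = 0} = 0 := by
  apply measure_null_of_locally_null
  intro x hx
  refine ⟨{x}, ?_, by simp⟩
  have hx' : disc V p x = 0 := hx
  have h1 : |disc V p x| < 2 := by rw [hx']; norm_num
  have h2 := hasDerivAt_disc hV h1 0
  have h3 : blN V p 0 x / sol V 0 1 x p ≠ 0 :=
    div_ne_zero (blN_pos hp h1 0).ne' (be_ne_zero h1)
  have h4 : ∀ᶠ z in 𝓝[≠] x, disc V p z ≠ 0 := h2.eventually_ne h3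
  rw [mem_nhdsWithin_iff_eventually]
  rw [eventually_nhdsWithin_iff] at h4
  filter_upwards [h4] with z hz hz2
  by_contra hne
  exact hz hne hz2

theorem disc_zero_null' (V : ℤ → ℝ) (p : ℕ) (hp : 0 < p) (hV : ∀ n, V (n + p) = V n) :
    volume {E | disc V p E = 0} = 0 := by
  rcases Nat.lt_or_ge 1 p with h | h
  · exact disc_zero_null V p h hV
  · have hp1 : p = 1 := by omega
    subst hp1
    have : {E | disc V 1 E = 0} ⊆ {V 1} := by
      intro E hE
      have h1 := sol_isSol V 0 1 E 1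
      have hE' : disc V 1 E = 0 := hE
      simp only [disc, Nat.cast_one, sol_one] at hE'
      rw [sol_one, sub_self, sol_zero] at h1
      simp only [Set.mem_singleton_iff]
      linarith
    exact measure_mono_null this (by simp)

/-- One step: the part of the spectrum lost has measure at most `2|d|`. -/
theorem spec_diff (V V' : ℤ → ℝ) (d : ℝ) (p : ℕ) (hp : 0 < p) (hV : ∀ n, V (n + p) = V n)
    (h : ∀ m : ℕ, 1 ≤ m → m < 2 * p → V' m = V m) (hd : V' ((2 * p : ℕ) : ℤ) = V ((2 * p : ℕ) : ℤ) + d) :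
    volume (spec V p \ spec V' (2 * p)) ≤ ENNReal.ofReal (2 * |d|) := by
  have hV2 : ∀ n, V (n + ((2 * p : ℕ) : ℤ)) = V n := by
    intro n
    have e : n + ((2 * p : ℕ) : ℤ) = (n + p) + p := by push_cast; ring
    rw [e, hV, hV]
  have hp2 : 0 < 2 * p := by omega
  have hsub : spec V p \ spec V' (2 * p) ⊆ {E | disc V p E = 0} ∪
      ({E | sol V 0 1 E ((2 * p : ℕ) : ℤ) ≠ 0 ∧ ss V (2 * p) 1 E ∈ Set.uIcc 0 d} ∪
       {E | sol V 0 1 E ((2 * p : ℕ) : ℤ) ≠ 0 ∧ ss V (2 * p) (-1) E ∈ Set.uIcc 0 d}) := by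
    rintro E ⟨hE1, hE2⟩
    have hE1' : |disc V p E| < 2 := hE1
    have hE2' : ¬ |disc V' (2 * p) E| < 2 := hE2
    by_cases h0 : disc V p E = 0
    · left; exact h0
    right
    obtain ⟨hd1, hd2⟩ := disc_double V p hV E
    have hb : sol V 0 1 E ((2 * p : ℕ) : ℤ) ≠ 0 := by
      rw [hd2]
      exact mul_ne_zero h0 (be_ne_zero hE1')
    have hdp := disc_perturb V V' d E (2 * p) hp2 h hd
    have hlt := abs_lt.mp hE1'
    have hlt1 : disc V (2 * p) E < 2 := by rw [hd1]; nlinarith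
    have hlt2 : -2 < disc V (2 * p) E := by
      rw [hd1]
      have : 0 < disc V p E ^ 2 := by positivity
      linarith
    rw [hdp, not_lt, le_abs] at hE2'
    set D := disc V (2 * p) E
    set β := sol V 0 1 E ((2 * p : ℕ) : ℤ)
    rcases hE2' with h1 | h1
    · left
      refine ⟨hb, ?_⟩
      have e1 : ss V (2 * p) 1 E = (D - 2) / β := by simp [ss, D, β]
      rw [e1, Set.mem_uIcc]
      rcases lt_or_gt_of_ne hb with hb1 | hb1
      · left
        constructor
        · exact div_nonneg_of_nonpos (by linarith) hb1.le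
        · rw [div_le_iff_of_neg hb1]; linarith
      · right
        constructor
        · rw [le_div_iff₀ hb1]; linarith
        · exact div_nonpos_of_nonpos_of_nonneg (by linarith) hb1.le
    · right
      refine ⟨hb, ?_⟩
      have e1 : ss V (2 * p) (-1) E = (D + 2) / β := by simp [ss, D, β]
      rw [e1, Set.mem_uIcc]
      rcases lt_or_gt_of_ne hb with hb1 | hb1
      · right
        constructor
        · rw [le_div_iff_of_neg hb1]; linarith
        · exact div_nonpos_of_nonneg_of_nonpos (by linarith) hb1.le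
      · left
        constructor
        · exact div_nonneg (by linarith) hb1.le
        · rw [div_le_iff₀ hb1]; linarith
  have hu : volume (Set.uIcc 0 d) = ENNReal.ofReal |d| := by
    rw [Set.uIcc, Real.volume_Icc, max_sub_min_eq_abs, sub_zero]
  have hb1 := boole V (2 * p) 1 hV2 hp2 (by norm_num) (Set.uIcc 0 d) measurableSet_uIcc
  have hb2 := boole V (2 * p) (-1) hV2 hp2 (by norm_num) (Set.uIcc 0 d) measurableSet_uIcc
  rw [hu] at hb1 hb2
  calc volume (spec V p \ spec V' (2 * p)) ≤ _ := measure_mono hsub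
    _ ≤ volume {E | disc V p E = 0} + (volume {E | sol V 0 1 E ((2 * p : ℕ) : ℤ) ≠ 0 ∧
          ss V (2 * p) 1 E ∈ Set.uIcc 0 d} + volume {E | sol V 0 1 E ((2 * p : ℕ) : ℤ) ≠ 0 ∧
          ss V (2 * p) (-1) E ∈ Set.uIcc 0 d}) :=
        (measure_union_le _ _).trans (by gcongr; exact measure_union_le _ _)
    _ ≤ 0 + (ENNReal.ofReal |d| + ENNReal.ofReal |d|) := by
        rw [disc_zero_null' V p hp hV]
        gcongr
    _ = ENNReal.ofReal (2 * |d|) := by
        rw [zero_add, ← ENNReal.ofReal_add (abs_nonneg _) (abs_nonneg _), two_mul]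

end Pool.Agent.LimPer
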