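import Mathlib
import Pool.Agent.Lib.MP_b5b0d6_mp.SpecMeas

set_option autoImplicit false

namespace Pool.Agent.LimPer

open MeasureTheory Polynomial Filter Topology

theorem restrict_self_of_supp (μ : Measure ℝ) (R : ℝ) (hs : μ (Set.Icc (-R) R)ᶜ = 0) :
    μ.restrict (Set.Icc (-R) R) = μ :=
  Measure.restrict_eq_self_of_ae_mem (by
    rw [ae_iff]
    exact hs)

theorem integrable_of_continuous (μ : Measure ℝ) [IsFiniteMeasure μ] (R : ℝ)
    (hs : μ (Set.Icc (-R) R)ᶜ = 0) (f : ℝ → ℝ) (hf : Continuous f) : Integrable f μ := by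
  rw [← restrict_self_of_supp μ R hs]
  exact hf.continuousOn.integrableOn_compact isCompact_Icc

theorem ae_mem_of_supp (μ : Measure ℝ) (R : ℝ) (hs : μ (Set.Icc (-R) R)ᶜ = 0) :
    ∀ᵐ x ∂μ, x ∈ Set.Icc (-R) R := by
  rw [ae_iff]
  exact hs

theorem integral_eval (V : ℤ → ℝ) (k : ℤ) (μ : Measure ℝ) [IsFiniteMeasure μ] (R : ℝ)
    (hs : μ (Set.Icc (-R) R)ᶜ = 0)
    (hm : ∀ m : ℕ, ∫ t, t ^ m ∂μ = fnl V k (X ^ m)) (q : ℝ[X]) :
    ∫ t, q.eval t ∂μ = fnl V k q := by
  induction q using Polynomial.induction_on' with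
  | add p q hp hq =>
    have h1 : Integrable (fun t => p.eval t) μ :=
      integrable_of_continuous μ R hs _ p.continuous
    have h2 : Integrable (fun t => q.eval t) μ :=
      integrable_of_continuous μ R hs _ q.continuous
    simp only [eval_add]
    rw [integral_add h1 h2, hp, hq]
    simp [fnl]
  | monomial m a =>
    simp only [eval_monomial]
    rw [integral_const_mul, hm, fnl, fnl, aeval_monomial, map_pow, aeval_X]
    simp [Module.End.mul_apply, Module.algebraMap_end_apply]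

theorem integral_sq (V : ℤ → ℝ) (k : ℤ) (μ : Measure ℝ) [IsFiniteMeasure μ] (R : ℝ)
    (hs : μ (Set.Icc (-R) R)ᶜ = 0)
    (hm : ∀ m : ℕ, ∫ t, t ^ m ∂μ = fnl V k (X ^ m)) (q : ℝ[X]) :
    ∫ t, (q.eval t) ^ 2 ∂μ = nsq (vec V q k) := by
  rw [← fnl_sq, ← integral_eval V k μ R hs hm]
  simp

/-- If `∫ q² ≥ κ q(E)²` for all polynomials `q`, then `μ {E} ≥ κ`. -/
theorem atom_of_poly_ineq (μ : Measure ℝ) [IsFiniteMeasure μ] (R E κ : ℝ) (hR : 0 < R)
    (hE : |E| ≤ R) (hs : μ (Set.Icc (-R) R)ᶜ = 0)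
    (h : ∀ q : ℝ[X], κ * (q.eval E) ^ 2 ≤ ∫ t, (q.eval t) ^ 2 ∂μ) :
    κ ≤ (μ {E}).toReal := by
  -- test polynomials
  let p : ℝ[X] := 1 - (C (1 / (2 * R)) * (X - C E)) ^ 2
  have hp : ∀ t, p.eval t = 1 - ((t - E) / (2 * R)) ^ 2 := by
    intro t
    simp [p]
    ring
  have hbound : ∀ t ∈ Set.Icc (-R) R, 0 ≤ p.eval t ∧ p.eval t ≤ 1 := by
    intro t ht
    rw [hp]
    have h1 : |(t - E) / (2 * R)| ≤ 1 := by
      rw [abs_div, abs_of_pos (by linarith : (0:ℝ) < 2 * R), div_le_one (by linarith)]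
      have := abs_sub t E
      have h2 : |t| ≤ R := abs_le.mpr ht
      linarith [abs_sub_le_iff.mp (le_refl |t - E|)]
    have h3 : ((t - E) / (2 * R)) ^ 2 ≤ 1 := by
      rw [← sq_abs]
      nlinarith [abs_nonneg ((t - E) / (2 * R))]
    constructor
    · linarith
    · nlinarith [sq_nonneg ((t - E) / (2 * R))]
  have hlim : Tendsto (fun m : ℕ => ∫ t, ((p ^ m).eval t) ^ 2 ∂μ) atTop
      (𝓝 (∫ t, Set.indicator {E} (fun _ => (1 : ℝ)) t ∂μ)) := by
    apply tendsto_integral_of_dominated_convergence (fun _ => (1 : ℝ))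
    · intro m
      exact ((p ^ m).continuous.pow 2).aestronglyMeasurable
    · exact integrable_const _
    · intro m
      filter_upwards [ae_mem_of_supp μ R hs] with t ht
      obtain ⟨h0, h1⟩ := hbound t ht
      rw [eval_pow, Real.norm_eq_abs, abs_of_nonneg (by positivity), ← pow_mul]
      exact pow_le_one₀ h0 h1
    · filter_upwards [ae_mem_of_supp μ R hs] with t ht
      obtain ⟨h0, h1⟩ := hbound t ht
      by_cases hte : t = E
      · subst hte
        have : p.eval t = 1 := by rw [hp]; simp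
        simp [this]
      · have hlt : p.eval t < 1 := by
          rw [hp]
          have h9 : (t - E) / (2 * R) ≠ 0 := div_ne_zero (sub_ne_zero.mpr hte) (by linarith)
          have : 0 < ((t - E) / (2 * R)) ^ 2 := by positivity
          linarith
        have h2 : Tendsto (fun m : ℕ => (p.eval t) ^ m) atTop (𝓝 0) :=
          tendsto_pow_atTop_nhds_zero_of_lt_one h0 hlt
        have h3 := h2.pow 2
        simp only [eval_pow]
        rw [Set.indicator_of_notMem (by simpa using hte)]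
        simpa using h3
  have hind : ∫ t, Set.indicator {E} (fun _ => (1 : ℝ)) t ∂μ = (μ {E}).toReal := by
    rw [integral_indicator (measurableSet_singleton E)]
    simp [Measure.real]
  rw [hind] at hlim
  apply ge_of_tendsto' hlim
  intro m
  have := h (p ^ m)
  have hpe : (p ^ m).eval E = 1 := by rw [eval_pow, hp]; simp
  rw [hpe] at this
  simpa using this

end Pool.Agent.LimPer
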