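import Mathlib
import Pool.Agent.Lib.MP_b5b0d6_mp.Moment

set_option autoImplicit false

namespace Pool.Agent.LimPer

open MeasureTheory Polynomial Filter Topology Set
open scoped ENNReal

/-- A measure whose quadratic form on polynomials dominates a multiple of Lebesgue measure on a
set of positive measure is not singular. -/
theorem not_singular_of_poly_ineq (ν : Measure ℝ) [IsFiniteMeasure ν] (R c : ℝ)
    (hs : ν (Set.Icc (-R) R)ᶜ = 0) (A : Set ℝ) (hA : MeasurableSet A) (hAR : A ⊆ Icc (-R) R)
    (hApos : 0 < volume A) (hc : 0 < c)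
    (h : ∀ q : ℝ[X], c * ∫ t in A, (q.eval t) ^ 2 ≤ ∫ t, (q.eval t) ^ 2 ∂ν) :
    ¬ (ν ⟂ₘ (volume : Measure ℝ)) := by
  rintro ⟨s, hsm, hs0, hs1⟩
  have hAfin : volume A < ∞ := (measure_mono hAR).trans_lt (by simp)
  have hAs : volume (A ∩ s) = volume A := by
    apply measure_inter_conull' 
    refine measure_mono_null ?_ hs1
    intro x hx
    exact hx.2
  have hAspos : 0 < volume (A ∩ s) := by rw [hAs]; exact hApos
  obtain ⟨K, hKs, hKc, hKpos⟩ := (hA.inter hsm).exists_lt_isCompact_of_ne_top
    (by rw [hAs]; exact hAfin.ne) hAspos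
  have hνK : ν K = 0 := measure_mono_null (hKs.trans inter_subset_right) hs0
  have hKfin : volume K < ∞ := (measure_mono (hKs.trans inter_subset_left)).trans_lt hAfin
  set v : ℝ := (volume K).toReal with hv
  have hvpos : 0 < v := ENNReal.toReal_pos hKpos.ne' hKfin.ne
  set M : ℝ := (ν univ).toReal with hM
  have hM0 : 0 ≤ M := ENNReal.toReal_nonneg
  -- choose ε
  set ε : ℝ := min (1 / 2) (c * v / (8 * (4 + M))) with hε
  have hε0 : 0 < ε := by
    apply lt_min (by norm_num)
    positivity
  have hε1 : ε ≤ 1 / 2 := min_le_left _ _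
  have hε2 : ε * (4 + M) ≤ c * v / 8 := by
    have : ε ≤ c * v / (8 * (4 + M)) := min_le_right _ _
    have h4 : 0 < 4 + M := by linarith
    calc ε * (4 + M) ≤ c * v / (8 * (4 + M)) * (4 + M) := by gcongr
      _ = c * v / 8 := by field_simp
  obtain ⟨U, hKU, hUo, hUν⟩ := K.exists_isOpen_lt_of_lt (μ := ν) (ENNReal.ofReal ε)
    (by rw [hνK]; exact ENNReal.ofReal_pos.mpr hε0)
  obtain ⟨f, hf0, hf1, hf01⟩ := exists_continuous_zero_one_of_isClosed
    (isClosed_compl_iff.mpr hUo) hKc.isClosed
    (by rw [disjoint_compl_left_iff_subset]; exact hKU)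
  obtain ⟨q, hq⟩ := exists_polynomial_near_of_continuousOn (-R) R f f.continuous.continuousOn ε hε0
  have hmain := h q
  -- lower bound of the left side
  have hlow : c * ((1 / 4) * v) ≤ c * ∫ t in A, (q.eval t) ^ 2 := by
    gcongr
    have hint : IntegrableOn (fun t => (q.eval t) ^ 2) A := by
      apply IntegrableOn.mono_set _ hAR
      exact (q.continuous.pow 2).continuousOn.integrableOn_compact isCompact_Icc
    calc (1 / 4) * v = ∫ t in K, (1 / 4 : ℝ) := by
          rw [setIntegral_const, smul_eq_mul, mul_comm]
          rfl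
      _ ≤ ∫ t in K, (q.eval t) ^ 2 := by
          apply setIntegral_mono_on
          · exact integrableOn_const hKfin.ne
          · exact hint.mono_set (hKs.trans inter_subset_left)
          · exact hKc.measurableSet
          · intro x hx
            have h1 := hq x (hAR (hKs hx).1)
            have h2 : f x = 1 := hf1 hx
            rw [h2] at h1
            have h3 := (abs_lt.mp h1).1
            have h4 : 1 / 2 ≤ q.eval x := by linarith
            nlinarith
      _ ≤ ∫ t in A, (q.eval t) ^ 2 := by
          apply setIntegral_mono_set hint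
          · exact ae_of_all _ fun x => sq_nonneg _
          · exact (hKs.trans inter_subset_left).eventuallyLE
  -- upper bound of the right side
  have hup : ∫ t, (q.eval t) ^ 2 ∂ν ≤ 4 * ε + ε * M := by
    have hUm : MeasurableSet U := hUo.measurableSet
    have hle : ∀ᵐ t ∂ν, (q.eval t) ^ 2 ≤ U.indicator (fun _ => (4 : ℝ)) t + ε := by
      filter_upwards [ae_mem_of_supp ν R hs] with t ht
      have h1 := abs_lt.mp (hq t ht)
      by_cases htU : t ∈ U
      · rw [indicator_of_mem htU]
        have h2 := hf01 t
        have h3 : |q.eval t| ≤ 2 := by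
          rw [abs_le]
          constructor <;> linarith [h2.1, h2.2, h1.1, h1.2]
        have h4 : (q.eval t) ^ 2 ≤ 4 := by
          rw [← sq_abs]
          nlinarith [abs_nonneg (q.eval t)]
        linarith
      · rw [indicator_of_notMem htU]
        have h2 : f t = 0 := hf0 htU
        rw [h2] at h1
        have h3 : |q.eval t| ≤ ε := by
          rw [abs_le]
          constructor <;> linarith [h1.1, h1.2]
        have h4 : (q.eval t) ^ 2 ≤ ε ^ 2 := by
          rw [← sq_abs]
          exact pow_le_pow_left₀ (abs_nonneg _) h3 2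
        nlinarith
    calc ∫ t, (q.eval t) ^ 2 ∂ν ≤ ∫ t, (U.indicator (fun _ => (4 : ℝ)) t + ε) ∂ν := by
          apply integral_mono_ae _ _ hle
          · exact integrable_of_continuous ν R hs _ (q.continuous.pow 2)
          · exact ((integrable_const _).indicator hUm).add (integrable_const _)
      _ = 4 * (ν U).toReal + ε * M := by
          rw [integral_add ((integrable_const _).indicator hUm) (integrable_const _),
            integral_indicator hUm, setIntegral_const, integral_const]
          simp only [smul_eq_mul, Measure.real]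
          ring
      _ ≤ 4 * ε + ε * M := by
          have : (ν U).toReal ≤ ε := by
            have := ENNReal.toReal_mono (by simp) hUν.le
            rwa [ENNReal.toReal_ofReal hε0.le] at this
          linarith
  have : c * ((1 / 4) * v) ≤ 4 * ε + ε * M := hlow.trans (hmain.trans hup)
  nlinarith [mul_pos hc hvpos]

end Pool.Agent.LimPer
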