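import Mathlib
import Pool.Agent.Lib.MP_b5b0d6_mp.Boole
import Pool.Agent.Lib.MP_b5b0d6_mp.Sing

set_option autoImplicit false

namespace Pool.Agent.LimPer

open Finset Filter Topology MeasureTheory Polynomial
open scoped ENNReal

/-- Level `j` term of the hierarchical potential. -/
noncomputable def lev (d : ℕ → ℝ) (n : ℤ) (j : ℕ) : ℝ :=
  if (2 : ℤ) ^ (j + 1) ∣ n then d j else 0

/-- Truncated hierarchical potential. -/
noncomputable def Vk (d : ℕ → ℝ) (k : ℕ) (n : ℤ) : ℝ := ∑ j ∈ Finset.range k, lev d n j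

/-- Hierarchical potential. -/
noncomputable def Vinf (d : ℕ → ℝ) (n : ℤ) : ℝ := ∑' j, lev d n j

theorem abs_lev_le (d : ℕ → ℝ) (n : ℤ) (j : ℕ) : |lev d n j| ≤ |d j| := by
  unfold lev
  split_ifs
  · exact le_refl _
  · simp

theorem summable_lev (d : ℕ → ℝ) (hd : Summable fun j => |d j|) (n : ℤ) :
    Summable (lev d n) :=
  Summable.of_norm_bounded hd (fun j => by rw [Real.norm_eq_abs]; exact abs_lev_le d n j)

theorem Vk_tendsto (d : ℕ → ℝ) (hd : Summable fun j => |d j|) (n : ℤ) :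
    Tendsto (fun k => Vk d k n) atTop (𝓝 (Vinf d n)) :=
  (summable_lev d hd n).hasSum.tendsto_sum_nat

theorem Vk_periodic (d : ℕ → ℝ) (k : ℕ) (n : ℤ) : Vk d k (n + ((2 ^ k : ℕ) : ℤ)) = Vk d k n := by
  unfold Vk
  apply Finset.sum_congr rfl
  intro j hj
  rw [Finset.mem_range] at hj
  unfold lev
  have h1 : (2 : ℤ) ^ (j + 1) ∣ ((2 ^ k : ℕ) : ℤ) := by
    push_cast
    exact pow_dvd_pow 2 (by omega)
  simp only [dvd_add_left h1]

theorem Vk_succ (d : ℕ → ℝ) (k : ℕ) (n : ℤ) : Vk d (k + 1) n = Vk d k n + lev d n k := by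
  unfold Vk
  rw [Finset.sum_range_succ]

theorem abs_sub_le (d : ℕ → ℝ) (hd : Summable fun j => |d j|) (k : ℕ) (n : ℤ) :
    |Vinf d n - Vk d k n| ≤ ∑' j, |d (j + k)| := by
  have h1 := (summable_lev d hd n).sum_add_tsum_nat_add k
  have h2 : Vinf d n - Vk d k n = ∑' j, lev d n (j + k) := by
    rw [Vinf, Vk, ← h1]
    ring
  rw [h2]
  have h3 : Summable (fun j => |d (j + k)|) := (summable_nat_add_iff k).mpr hd
  have h4 : Summable (fun j => lev d n (j + k)) := (summable_nat_add_iff k).mpr (summable_lev d hd n)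
  calc |∑' j, lev d n (j + k)| ≤ ∑' j, |lev d n (j + k)| := by
        have := norm_tsum_le_tsum_norm (f := fun j => lev d n (j + k))
          (Summable.of_norm_bounded h3 (fun j => by
            rw [norm_norm, Real.norm_eq_abs]; exact abs_lev_le d n (j + k)))
        simpa [Real.norm_eq_abs] using this
    _ ≤ ∑' j, |d (j + k)| := by
        apply Summable.tsum_le_tsum (fun j => abs_lev_le d n (j + k)) _ h3
        exact Summable.of_norm_bounded h3 (fun j => by
            rw [Real.norm_eq_abs, abs_abs]; exact abs_lev_le d n (j + k))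

theorem Vinf_bdd (d : ℕ → ℝ) (hd : Summable fun j => |d j|) (n : ℤ) :
    |Vinf d n| ≤ ∑' j, |d j| := by
  have := abs_sub_le d hd 0 n
  simpa [Vk] using this

theorem Vinf_limitPeriodic (d : ℕ → ℝ) (hd : Summable fun j => |d j|) (ε : ℝ) (hε : 0 < ε) :
    ∃ p : ℤ, 0 < p ∧ ∃ W : ℤ → ℝ, Function.Periodic W p ∧ ∀ n : ℤ, |Vinf d n - W n| < ε := by
  have h1 : Tendsto (fun k => ∑' j, |d (j + k)|) atTop (𝓝 0) := tendsto_sum_nat_add (fun j => |d j|)
  obtain ⟨k, hk⟩ := (h1.eventually (gt_mem_nhds hε)).exists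
  refine ⟨((2 ^ k : ℕ) : ℤ), by positivity, Vk d k, fun n => Vk_periodic d k n, fun n => ?_⟩
  exact lt_of_le_of_lt (abs_sub_le d hd k n) hk

/-! ### Convergence of the algebraic data -/

theorem opF_pow_tendsto (Vs : ℕ → ℤ → ℝ) (V : ℤ → ℝ) (h : ∀ n, Tendsto (fun k => Vs k n) atTop (𝓝 (V n)))
    (i : ℤ) (m : ℕ) (n : ℤ) :
    Tendsto (fun k => ((opF (Vs k) ^ m) (Finsupp.single i 1)) n) atTop
      (𝓝 (((opF V ^ m) (Finsupp.single i 1)) n)) := by
  induction m generalizing n with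
  | zero => simp only [pow_zero, Module.End.one_apply]; exact tendsto_const_nhds
  | succ m ih =>
    simp only [pow_succ', Module.End.mul_apply, opF_apply]
    exact ((ih (n + 1)).add (ih (n - 1))).add ((h n).mul (ih n))

theorem vec_tendsto (Vs : ℕ → ℤ → ℝ) (V : ℤ → ℝ) (h : ∀ n, Tendsto (fun k => Vs k n) atTop (𝓝 (V n)))
    (q : ℝ[X]) (i : ℤ) (n : ℤ) :
    Tendsto (fun k => vec (Vs k) q i n) atTop (𝓝 (vec V q i n)) := by
  have e : ∀ W : ℤ → ℝ, vec W q i n = ∑ m ∈ Finset.range (q.natDegree + 1),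
      q.coeff m * ((opF W ^ m) (Finsupp.single i 1)) n := by
    intro W
    rw [vec, Polynomial.aeval_eq_sum_range, LinearMap.sum_apply, Finsupp.finsetSum_apply]
    rfl
  simp only [e]
  apply tendsto_finsetSum
  intro m _
  exact tendsto_const_nhds.mul (opF_pow_tendsto Vs V h i m n)

theorem nsq_tendsto (Vs : ℕ → ℤ → ℝ) (V : ℤ → ℝ) (h : ∀ n, Tendsto (fun k => Vs k n) atTop (𝓝 (V n)))
    (q : ℝ[X]) (i : ℤ) :
    Tendsto (fun k => nsq (vec (Vs k) q i)) atTop (𝓝 (nsq (vec V q i))) := by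
  simp only [nsq_eq_of_subset _ _ (vec_support _ q i)]
  apply tendsto_finsetSum
  intro n _
  exact (vec_tendsto Vs V h q i n).pow 2

/-! ### The absolutely continuous part -/

/-- The level-`k` spectra. -/
def sg (d : ℕ → ℝ) (k : ℕ) : Set ℝ := spec (Vk d k) (2 ^ k)

theorem sg_diff (d : ℕ → ℝ) (k : ℕ) : volume (sg d k \ sg d (k + 1)) ≤ ENNReal.ofReal (2 * |d k|) := by
  have e : 2 ^ (k + 1) = 2 * 2 ^ k := by ring
  unfold sg
  rw [e]
  apply spec_diff (Vk d k) (Vk d (k + 1)) (d k) (2 ^ k) (by positivity) (Vk_periodic d k)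
  · intro m hm1 hm2
    rw [Vk_succ]
    have : lev d (m : ℤ) k = 0 := by
      unfold lev
      rw [if_neg]
      intro hdvd
      have h1 : 2 ^ (k + 1) ∣ m := by exact_mod_cast hdvd
      have := Nat.le_of_dvd (by omega) h1
      omega
    rw [this, add_zero]
  · rw [Vk_succ]
    congr 1
    unfold lev
    rw [if_pos]
    rw [← e]
    push_cast
    exact dvd_refl _

theorem sg_zero (d : ℕ → ℝ) : sg d 0 = Set.Ioo (-2) 2 := by
  ext E
  have h1 := sol_isSol (Vk d 0) 0 1 E 1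
  have h2 : Vk d 0 1 = 0 := by simp [Vk]
  rw [h2, sol_one, sub_self, sol_zero] at h1
  have h3 : disc (Vk d 0) (2 ^ 0) E = E := by
    simp only [disc, pow_zero, Nat.cast_one, sol_one]
    linarith
  simp only [sg, spec, Set.mem_ofPred_eq, h3, Set.mem_Ioo, abs_lt]

/-- The limiting set of energies. -/
def AA (d : ℕ → ℝ) : Set ℝ := ⋂ k, sg d k

theorem AA_measurable (d : ℕ → ℝ) : MeasurableSet (AA d) :=
  MeasurableSet.iInter fun k => (isOpen_spec _ _).measurableSet

theorem AA_pos (d : ℕ → ℝ) (hd : Summable fun j => |d j|) (hlt : ∑' j, |d j| < 2) :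
    0 < volume (AA d) := by
  have h1 : sg d 0 ⊆ AA d ∪ ⋃ k, (sg d k \ sg d (k + 1)) := by
    intro x hx
    by_cases hA : x ∈ AA d
    · left; exact hA
    right
    by_contra hcon
    apply hA
    simp only [AA, Set.mem_iInter]
    intro k
    induction k with
    | zero => exact hx
    | succ k ih =>
      by_contra hk
      exact hcon (Set.mem_iUnion.mpr ⟨k, ih, hk⟩)
  have h2 : volume (sg d 0) = ENNReal.ofReal 4 := by
    rw [sg_zero, Real.volume_Ioo]
    norm_num
  have h3 : volume (⋃ k, (sg d k \ sg d (k + 1))) ≤ ENNReal.ofReal (2 * ∑' j, |d j|) := by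
    calc _ ≤ ∑' k, volume (sg d k \ sg d (k + 1)) := measure_iUnion_le _
      _ ≤ ∑' k, ENNReal.ofReal (2 * |d k|) := ENNReal.tsum_le_tsum (fun k => sg_diff d k)
      _ = ENNReal.ofReal (∑' k, 2 * |d k|) := by
          rw [ENNReal.ofReal_tsum_of_nonneg (fun k => by positivity) (hd.mul_left 2)]
      _ = _ := by rw [tsum_mul_left]
  by_contra hcon
  have h4 : volume (AA d) = 0 := le_antisymm (not_lt.mp hcon) (by positivity)
  have h5 : ENNReal.ofReal 4 ≤ ENNReal.ofReal (2 * ∑' j, |d j|) := by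
    rw [← h2]
    calc volume (sg d 0) ≤ volume (AA d) + volume (⋃ k, (sg d k \ sg d (k + 1))) :=
          (measure_mono h1).trans (measure_union_le _ _)
      _ ≤ _ := by rw [h4, zero_add]; exact h3
  rw [ENNReal.ofReal_le_ofReal_iff (mul_nonneg (by norm_num) (tsum_nonneg fun j => abs_nonneg _))] at h5
  linarith

theorem ac_limit (d : ℕ → ℝ) (hd : Summable fun j => |d j|) (q : ℝ[X]) :
    ∫ t in AA d, (q.eval t) ^ 2 ≤
      Real.pi * (nsq (vec (Vinf d) q 0) + nsq (vec (Vinf d) q 1)) := by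
  have hsub : ∀ k, AA d ⊆ sg d k := fun k => Set.iInter_subset _ k
  have hfin : AA d ⊆ Set.Icc (-2) 2 := by
    intro x hx
    have := hsub 0 hx
    rw [sg_zero] at this
    exact ⟨this.1.le, this.2.le⟩
  have hint : IntegrableOn (fun t => (q.eval t) ^ 2) (AA d) := by
    apply IntegrableOn.mono_set _ hfin
    exact (q.continuous.pow 2).continuousOn.integrableOn_compact isCompact_Icc
  have hk : ∀ᶠ k : ℕ in atTop, ∫ t in AA d, (q.eval t) ^ 2 ≤
      Real.pi * (nsq (vec (Vk d k) q 0) + nsq (vec (Vk d k) q 1)) := by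
    have hlarge : ∀ᶠ k : ℕ in atTop, 2 * q.natDegree + 2 ≤ 2 ^ k := by
      have : Tendsto (fun k : ℕ => 2 ^ k) atTop atTop :=
        tendsto_pow_atTop_atTop_of_one_lt (by norm_num)
      exact this.eventually_ge_atTop _
    filter_upwards [hlarge] with k hk
    have h1 := ac_ineq (Vk d k) (2 ^ k) (Vk_periodic d k) q hk
    have h2 : ∫⁻ E in AA d, ENNReal.ofReal ((q.eval E) ^ 2) ≤
        ENNReal.ofReal ((nsq (vec (Vk d k) q 0) + nsq (vec (Vk d k) q 1)) * Real.pi) := by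
      rw [ENNReal.ofReal_mul (add_nonneg (nsq_nonneg _) (nsq_nonneg _))]
      exact (lintegral_mono_set (hsub k)).trans h1
    rw [integral_eq_lintegral_of_nonneg_ae (ae_of_all _ fun _ => sq_nonneg _)
      hint.aestronglyMeasurable]
    have h3 : 0 ≤ (nsq (vec (Vk d k) q 0) + nsq (vec (Vk d k) q 1)) * Real.pi :=
      mul_nonneg (add_nonneg (nsq_nonneg _) (nsq_nonneg _)) Real.pi_pos.le
    have h4 := ENNReal.toReal_mono ENNReal.ofReal_ne_top h2
    rw [ENNReal.toReal_ofReal h3] at h4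
    rw [mul_comm Real.pi]
    exact h4
  have hlim : Tendsto (fun k => Real.pi * (nsq (vec (Vk d k) q 0) + nsq (vec (Vk d k) q 1))) atTop
      (𝓝 (Real.pi * (nsq (vec (Vinf d) q 0) + nsq (vec (Vinf d) q 1)))) :=
    ((nsq_tendsto _ _ (Vk_tendsto d hd) q 0).add
      (nsq_tendsto _ _ (Vk_tendsto d hd) q 1)).const_mul _
  exact ge_of_tendsto hlim hk

/-- The a.c. part: for `Σ|d_j| < 2` one of the spectral measures at sites `0`, `1` is not
singular. -/
theorem exists_nonsingular (d : ℕ → ℝ) (hd : Summable fun j => |d j|) (hlt : ∑' j, |d j| < 2) :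
    ∃ k : ℤ, ∃ μ : Measure ℝ, IsFiniteMeasure μ ∧ (∀ m : ℕ, Integrable (fun x : ℝ => x ^ m) μ) ∧
      (∀ m : ℕ, ∫ x, x ^ m ∂μ = fnl (Vinf d) k (X ^ m)) ∧
      ¬ Measure.MutuallySingular μ (volume : Measure ℝ) := by
  obtain ⟨R, hR, hall⟩ := exists_spectral_measure (Vinf d) _ (Vinf_bdd d hd)
  obtain ⟨μ0, hf0, hs0, hm0⟩ := hall 0
  obtain ⟨μ1, hf1, hs1, hm1⟩ := hall 1
  -- enlarge the support interval
  set R' : ℝ := max R 2 with hR'
  have hmono : Set.Icc (-R) R ⊆ Set.Icc (-R') R' := by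
    intro x hx
    have : R ≤ R' := le_max_left _ _
    exact ⟨by linarith [hx.1], by linarith [hx.2]⟩
  have hs0' : μ0 (Set.Icc (-R') R')ᶜ = 0 :=
    measure_mono_null (Set.compl_subset_compl.mpr hmono) hs0
  have hs1' : μ1 (Set.Icc (-R') R')ᶜ = 0 :=
    measure_mono_null (Set.compl_subset_compl.mpr hmono) hs1
  by_cases h0 : μ0 ⟂ₘ (volume : Measure ℝ)
  swap
  · exact ⟨0, μ0, hf0, fun m => integrable_of_continuous μ0 R hs0 _ (continuous_pow m), hm0, h0⟩
  by_cases h1 : μ1 ⟂ₘ (volume : Measure ℝ)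
  swap
  · exact ⟨1, μ1, hf1, fun m => integrable_of_continuous μ1 R hs1 _ (continuous_pow m), hm1, h1⟩
  exfalso
  have hsum : (μ0 + μ1) ⟂ₘ (volume : Measure ℝ) := h0.add_left h1
  refine not_singular_of_poly_ineq (μ0 + μ1) R' (1 / Real.pi) ?_ (AA d) (AA_measurable d) ?_
    (AA_pos d hd hlt) (one_div_pos.mpr Real.pi_pos) ?_ hsum
  · rw [Measure.add_apply, hs0', hs1', add_zero]
  · intro x hx
    have : x ∈ sg d 0 := Set.mem_iInter.mp hx 0
    rw [sg_zero] at this
    have h2 : 2 ≤ R' := le_max_right _ _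
    exact ⟨by linarith [this.1], by linarith [this.2]⟩
  · intro q
    have hi0 : Integrable (fun t => (q.eval t) ^ 2) μ0 :=
      integrable_of_continuous μ0 R hs0 _ (q.continuous.pow 2)
    have hi1 : Integrable (fun t => (q.eval t) ^ 2) μ1 :=
      integrable_of_continuous μ1 R hs1 _ (q.continuous.pow 2)
    rw [integral_add_measure hi0 hi1,
      integral_sq (Vinf d) 0 μ0 R hs0 hm0 q, integral_sq (Vinf d) 1 μ1 R hs1 hm1 q]
    have := ac_limit d hd q
    rw [one_div, inv_mul_le_iff₀ Real.pi_pos]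
    exact this

end Pool.Agent.LimPer
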