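import Mathlib
import Pool.Agent.Lib.MP_b5b0d6_mp.Hier

/-!
# A limit-periodic Schrödinger operator with a nonempty a.c. spectrum and an eigenvector

The potential is `V = ∑ d_j 1_{2^(j+1) ∣ n}` with `d_j ≥ 0`, `∑ d_j < 2`; the eigenvector (energy `5/2`) is the
sequence of the coefficients of the Riesz product `∏ (1 + 2 r_k cos 2^k θ)`, `r_k = (2/5)(3/5)^k`.
-/

set_option autoImplicit false

namespace Pool.Agent.LimPer.Mix

open Finset Filter Topology MeasureTheory Polynomial
open Pool.Agent.LimPer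

/-- Riesz product ratios. -/
noncomputable def rr (k : ℕ) : ℝ := 2 / 5 * (3 / 5) ^ k

/-- Effective energy differences. -/
noncomputable def DD : ℕ → ℝ
  | 0 => 5 / 2
  | k + 1 => 5 / 3 * rr k * DD k

/-- Products of the ratios (effective hopping). -/
noncomputable def BB (k : ℕ) : ℝ := rr k * DD k

/-- Level coefficients of the potential. -/
noncomputable def dd (k : ℕ) : ℝ := DD k - DD (k + 1) - 2 * BB (k + 1)

theorem rr_pos (k : ℕ) : 0 < rr k := by unfold rr; positivity

theorem rr_succ (k : ℕ) : rr (k + 1) = 3 / 5 * rr k := by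
  unfold rr
  rw [pow_succ]
  ring

theorem rr_le (k : ℕ) : rr k ≤ 2 / 5 := by
  unfold rr
  have : ((3 : ℝ) / 5) ^ k ≤ 1 := pow_le_one₀ (by norm_num) (by norm_num)
  linarith

theorem BB_zero : BB 0 = 1 := by
  simp [BB, rr, DD]

theorem BB_succ (k : ℕ) : BB (k + 1) = rr k * BB k := by
  unfold BB
  rw [rr_succ]
  simp only [DD]
  ring

theorem DD_pos (k : ℕ) : 0 < DD k := by
  induction k with
  | zero => norm_num [DD]
  | succ k ih =>
    simp only [DD]
    have := rr_pos k
    positivity

theorem BB_pos (k : ℕ) : 0 < BB k := mul_pos (rr_pos k) (DD_pos k)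

theorem DD_le (k : ℕ) : DD k ≤ 5 / 2 * (2 / 3) ^ k := by
  induction k with
  | zero => norm_num [DD]
  | succ k ih =>
    simp only [DD]
    have h1 := rr_le k
    have h2 := DD_pos k
    have h3 := rr_pos k
    calc 5 / 3 * rr k * DD k ≤ 5 / 3 * (2 / 5) * (5 / 2 * (2 / 3) ^ k) := by gcongr
      _ = 5 / 2 * (2 / 3) ^ (k + 1) := by ring

theorem BB_le (k : ℕ) : BB k ≤ (2 / 3) ^ k := by
  unfold BB
  calc rr k * DD k ≤ 2 / 5 * (5 / 2 * (2 / 3) ^ k) :=
        mul_le_mul (rr_le k) (DD_le k) (DD_pos k).le (by norm_num)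
    _ = (2 / 3) ^ k := by ring

theorem tendsto_DD : Tendsto DD atTop (𝓝 0) := by
  refine squeeze_zero (fun k => (DD_pos k).le) DD_le ?_
  have := (tendsto_pow_atTop_nhds_zero_of_lt_one (by norm_num : (0:ℝ) ≤ 2 / 3)
    (by norm_num)).const_mul (5 / 2)
  simpa using this

theorem tendsto_BB : Tendsto BB atTop (𝓝 0) := by
  refine squeeze_zero (fun k => (BB_pos k).le) BB_le ?_
  exact tendsto_pow_atTop_nhds_zero_of_lt_one (by norm_num) (by norm_num)

theorem dd_nonneg (k : ℕ) : 0 ≤ dd k := by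
  have h1 : dd k = DD k * (1 - 5 / 3 * rr k - 2 * rr k ^ 2) := by
    unfold dd
    rw [BB_succ]
    simp only [DD, BB]
    ring
  rw [h1]
  refine mul_nonneg (DD_pos k).le ?_
  have h2 := rr_le k
  have h3 := rr_pos k
  nlinarith

theorem sum_dd' (n : ℕ) : ∑ j ∈ range n, dd j ≤ 17 / 10 := by
  rcases n with _ | n
  · norm_num
  · have key : ∀ n : ℕ, ∑ j ∈ range (n + 1), dd j ≤ 17 / 10 - DD (n + 1) := by
      intro n
      induction n with
      | zero =>
        have h : BB 1 = 2 / 5 := by
          rw [BB_succ, BB_zero]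
          simp [rr]
        have h0 : DD 0 = 5 / 2 := rfl
        simp only [zero_add, range_one, sum_singleton, dd, h, h0]
        linarith
      | succ n ih =>
        rw [sum_range_succ]
        have := BB_pos (n + 1 + 1)
        have h2 : dd (n + 1) = DD (n + 1) - DD (n + 1 + 1) - 2 * BB (n + 1 + 1) := rfl
        rw [h2]
        linarith
    have := key n
    have := DD_pos (n + 1)
    linarith

theorem summable_dd : Summable dd :=
  summable_of_sum_range_le dd_nonneg sum_dd'

theorem summable_abs_dd : Summable fun j => |dd j| := by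
  simp only [abs_of_nonneg (dd_nonneg _)]
  exact summable_dd

theorem tsum_abs_dd_le : ∑' j, |dd j| ≤ 17 / 10 := by
  simp only [abs_of_nonneg (dd_nonneg _)]
  exact Summable.tsum_le_of_sum_range_le summable_dd sum_dd'

/-- Partial Riesz product coefficients. -/
noncomputable def uu : ℕ → ℤ → ℝ
  | 0 => Pi.single 0 1
  | k + 1 => fun n => uu k n + rr k * (uu k (n - 2 ^ k) + uu k (n + 2 ^ k))

theorem uu_supp (k : ℕ) (n : ℤ) (h : (2 : ℤ) ^ k ≤ |n|) : uu k n = 0 := by
  induction k generalizing n with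
  | zero =>
    simp only [uu]
    have : n ≠ 0 := by
      intro h0
      subst h0
      simp at h
    simp [this]
  | succ k ih =>
    simp only [uu]
    have hp : (0 : ℤ) < 2 ^ k := by positivity
    have h' : 2 * (2 : ℤ) ^ k ≤ |n| := by rw [pow_succ] at h; linarith
    rw [ih n (by linarith), ih (n - 2 ^ k), ih (n + 2 ^ k)]
    · ring
    · rcases abs_cases n with ⟨h1, h2⟩ | ⟨h1, h2⟩
      · rw [abs_of_nonneg (by linarith)]; linarith
      · rw [le_abs]; right; linarith
    · rcases abs_cases n with ⟨h1, h2⟩ | ⟨h1, h2⟩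
      · rw [le_abs]; left; linarith
      · rw [abs_of_nonpos (by linarith)]; linarith

theorem uu_zero (k : ℕ) : uu k 0 = 1 := by
  induction k with
  | zero => simp [uu]
  | succ k ih =>
    have hp : (0 : ℤ) < 2 ^ k := by positivity
    simp only [uu]
    rw [ih, uu_supp k (0 - 2 ^ k), uu_supp k (0 + 2 ^ k)]
    · ring
    · rw [zero_add, abs_of_pos hp]
    · rw [zero_sub, abs_neg, abs_of_pos hp]

theorem uu_l1 (k : ℕ) (s : Finset ℤ) :
    ∑ n ∈ s, |uu k n| ≤ Real.exp (2 * (1 - (3 / 5) ^ k)) := by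
  induction k generalizing s with
  | zero =>
    simp only [uu, pow_zero, sub_self, mul_zero, Real.exp_zero]
    calc ∑ n ∈ s, |(Pi.single 0 1 : ℤ → ℝ) n| ≤ ∑ n ∈ insert 0 s, |(Pi.single 0 1 : ℤ → ℝ) n| :=
          Finset.sum_le_sum_of_subset_of_nonneg (Finset.subset_insert _ _)
            (fun _ _ _ => abs_nonneg _)
      _ = 1 := by
          rw [Finset.sum_eq_single_of_mem 0 (Finset.mem_insert_self _ _)]
          · simp
          · intro b _ hb
            simp [hb]
  | succ k ih =>
    have h1 : ∑ n ∈ s, |uu k (n - 2 ^ k)| ≤ Real.exp (2 * (1 - (3 / 5) ^ k)) := by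
      have := ih (s.map (Equiv.subRight ((2 : ℤ) ^ k)).toEmbedding)
      rw [Finset.sum_map] at this
      exact this
    have h2 : ∑ n ∈ s, |uu k (n + 2 ^ k)| ≤ Real.exp (2 * (1 - (3 / 5) ^ k)) := by
      have := ih (s.map (Equiv.addRight ((2 : ℤ) ^ k)).toEmbedding)
      rw [Finset.sum_map] at this
      exact this
    have h0 := ih s
    set M := Real.exp (2 * (1 - (3 / 5) ^ k)) with hM
    have hr := (rr_pos k).le
    calc ∑ n ∈ s, |uu (k + 1) n| ≤
        ∑ n ∈ s, (|uu k n| + rr k * (|uu k (n - 2 ^ k)| + |uu k (n + 2 ^ k)|)) := by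
          apply Finset.sum_le_sum
          intro n _
          simp only [uu]
          calc _ ≤ |uu k n| + |rr k * (uu k (n - 2 ^ k) + uu k (n + 2 ^ k))| := abs_add_le _ _
            _ ≤ _ := by
                rw [abs_mul, abs_of_nonneg hr]
                gcongr
                exact abs_add_le _ _
      _ = ∑ n ∈ s, |uu k n| + rr k * (∑ n ∈ s, |uu k (n - 2 ^ k)| + ∑ n ∈ s, |uu k (n + 2 ^ k)|) := by
          rw [Finset.sum_add_distrib, ← Finset.mul_sum, Finset.sum_add_distrib]
      _ ≤ M + rr k * (M + M) := by gcongr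
      _ = M * (1 + 2 * rr k) := by ring
      _ ≤ M * Real.exp (2 * rr k) := by
          have := Real.add_one_le_exp (2 * rr k)
          have hMpos : 0 < M := Real.exp_pos _
          gcongr
          linarith
      _ = Real.exp (2 * (1 - (3 / 5) ^ (k + 1))) := by
          rw [hM, ← Real.exp_add]
          congr 1
          unfold rr
          ring

theorem uu_l1' (k : ℕ) (s : Finset ℤ) : ∑ n ∈ s, |uu k n| ≤ Real.exp 2 := by
  refine (uu_l1 k s).trans (Real.exp_le_exp.mpr ?_)
  have : (0:ℝ) < (3 / 5) ^ k := by positivity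
  linarith

theorem uu_l2 (k : ℕ) (s : Finset ℤ) : ∑ n ∈ s, uu k n ^ 2 ≤ Real.exp 4 := by
  have h1 := uu_l1' k s
  have h2 : ∑ n ∈ s, uu k n ^ 2 ≤ (∑ n ∈ s, |uu k n|) ^ 2 := by
    rw [pow_two, Finset.sum_mul]
    apply Finset.sum_le_sum
    intro n hn
    rw [← sq_abs, pow_two]
    apply mul_le_mul_of_nonneg_left _ (abs_nonneg _)
    exact Finset.single_le_sum (f := fun n => |uu k n|) (fun _ _ => abs_nonneg _) hn
  have h3 : (∑ n ∈ s, |uu k n|) ^ 2 ≤ (Real.exp 2) ^ 2 :=
    pow_le_pow_left₀ (Finset.sum_nonneg fun _ _ => abs_nonneg _) h1 2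
  have h4 : (Real.exp 2) ^ 2 = Real.exp 4 := by
    rw [← Real.exp_nat_mul]
    norm_num
  linarith

theorem uu_abs_le (k : ℕ) (n : ℤ) : |uu k n| ≤ Real.exp 2 := by
  have := uu_l1' k {n}
  simpa using this

/-- Delta function. -/
noncomputable def dl (a n : ℤ) : ℝ := if n = a then 1 else 0

/-- The residual identity. -/
theorem uu_res (k : ℕ) (n : ℤ) :
    5 / 2 * uu k n - (uu k (n + 1) + uu k (n - 1) + Vk dd k n * uu k n) =
      DD k * dl 0 n - BB k * (dl (2 ^ k) n + dl (-2 ^ k) n) := by
  induction k generalizing n with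
  | zero =>
    rw [BB_zero]
    simp only [uu, DD, Vk, Finset.range_zero, Finset.sum_empty, zero_mul, add_zero, pow_zero,
      dl, Pi.single_apply, one_mul]
    by_cases h0 : n = 0
    · subst h0
      norm_num
    by_cases h1 : n = 1
    · subst h1
      norm_num
    by_cases h2 : n = -1
    · subst h2
      norm_num
    · have h3 : n + 1 ≠ 0 := by omega
      have h4 : n - 1 ≠ 0 := by omega
      simp [h0, h1, h2, h3, h4]
  | succ k ih =>
    have hper : ∀ m : ℤ, Vk dd k (m + 2 ^ k) = Vk dd k m := by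
      intro m
      have := Vk_periodic dd k m
      push_cast at this
      exact this
    have hper' : ∀ m : ℤ, Vk dd k (m - 2 ^ k) = Vk dd k m := by
      intro m
      have := hper (m - 2 ^ k)
      rw [sub_add_cancel] at this
      exact this.symm
    have i0 := ih n
    have i1 := ih (n - 2 ^ k)
    have i2 := ih (n + 2 ^ k)
    rw [hper'] at i1
    rw [hper] at i2
    have e1 : n - 2 ^ k + 1 = n + 1 - 2 ^ k := by ring
    have e2 : n - 2 ^ k - 1 = n - 1 - 2 ^ k := by ring
    have e3 : n + 2 ^ k + 1 = n + 1 + 2 ^ k := by ring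
    have e4 : n + 2 ^ k - 1 = n - 1 + 2 ^ k := by ring
    rw [e1, e2] at i1
    rw [e3, e4] at i2
    have hlev : lev dd n k * uu (k + 1) n = dd k * dl 0 n := by
      by_cases h0 : n = 0
      · subst h0
        rw [uu_zero]
        simp [lev, dl]
      · have hz : dl 0 n = 0 := by simp [dl, h0]
        rw [hz, mul_zero]
        by_cases hdvd : (2 : ℤ) ^ (k + 1) ∣ n
        · have : (2 : ℤ) ^ (k + 1) ≤ |n| := by
            apply Int.le_of_dvd (abs_pos.mpr h0)
            exact (dvd_abs _ _).mpr hdvd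
          rw [uu_supp (k + 1) n this, mul_zero]
        · simp [lev, hdvd]
    have hrD : rr k * DD k = BB k := rfl
    have hB : BB (k + 1) = rr k * BB k := BB_succ k
    have hd : dd k = DD k - DD (k + 1) - 2 * BB (k + 1) := rfl
    -- delta function bookkeeping
    have d1 : dl 0 (n - 2 ^ k) = dl (2 ^ k) n := by
      simp only [dl]; congr 1; simp only [eq_iff_iff]; constructor <;> intro h <;> linarith
    have d2 : dl (2 ^ k) (n - 2 ^ k) = dl (2 ^ (k + 1)) n := by
      simp only [dl]; congr 1; simp only [eq_iff_iff]; rw [pow_succ]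
      constructor <;> intro h <;> linarith
    have d3 : dl (-2 ^ k) (n - 2 ^ k) = dl 0 n := by
      simp only [dl]; congr 1; simp only [eq_iff_iff]; constructor <;> intro h <;> linarith
    have d4 : dl 0 (n + 2 ^ k) = dl (-2 ^ k) n := by
      simp only [dl]; congr 1; simp only [eq_iff_iff]; constructor <;> intro h <;> linarith
    have d5 : dl (2 ^ k) (n + 2 ^ k) = dl 0 n := by
      simp only [dl]; congr 1; simp only [eq_iff_iff]; constructor <;> intro h <;> linarith
    have d6 : dl (-2 ^ k) (n + 2 ^ k) = dl (-2 ^ (k + 1)) n := by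
      simp only [dl]; congr 1; simp only [eq_iff_iff]; rw [pow_succ]
      constructor <;> intro h <;> linarith
    rw [d1, d2, d3] at i1
    rw [d4, d5, d6] at i2
    rw [Vk_succ, add_mul, hlev]
    simp only [uu]
    rw [hd, hB]
    linear_combination i0 + rr k * i1 + rr k * i2 + (dl (2 ^ k) n + dl (-2 ^ k) n) * hrD

/-- The approximations converge pointwise. -/
theorem exists_lim (n : ℤ) : ∃ l : ℝ, Tendsto (fun k => uu k n) atTop (𝓝 l) := by
  refine cauchySeq_tendsto_of_complete (cauchySeq_of_le_geometric (3 / 5) (2 * Real.exp 2)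
    (by norm_num) fun k => ?_)
  rw [dist_comm, Real.dist_eq]
  have h1 : uu (k + 1) n - uu k n = rr k * (uu k (n - 2 ^ k) + uu k (n + 2 ^ k)) := by
    simp only [uu]
    ring
  rw [h1, abs_mul, abs_of_pos (rr_pos k)]
  have h2 : |uu k (n - 2 ^ k) + uu k (n + 2 ^ k)| ≤ 2 * Real.exp 2 := by
    have h3 := abs_add_le (uu k (n - 2 ^ k)) (uu k (n + 2 ^ k))
    have h4 := uu_abs_le k (n - 2 ^ k)
    have h5 := uu_abs_le k (n + 2 ^ k)
    linarith
  have h6 : rr k ≤ (3 / 5) ^ k := by
    unfold rr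
    have : (0 : ℝ) < (3 / 5) ^ k := by positivity
    linarith
  calc rr k * |uu k (n - 2 ^ k) + uu k (n + 2 ^ k)| ≤ (3 / 5) ^ k * (2 * Real.exp 2) :=
        mul_le_mul h6 h2 (abs_nonneg _) (by positivity)
    _ = 2 * Real.exp 2 * (3 / 5) ^ k := by ring

/-- The eigenvector. -/
noncomputable def uinf (n : ℤ) : ℝ := (exists_lim n).choose

theorem tendsto_uu (n : ℤ) : Tendsto (fun k => uu k n) atTop (𝓝 (uinf n)) :=
  (exists_lim n).choose_spec

theorem uinf_zero : uinf 0 = 1 := by
  refine tendsto_nhds_unique (tendsto_uu 0) ?_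
  simp only [uu_zero]
  exact tendsto_const_nhds

theorem uinf_l2 (s : Finset ℤ) : ∑ n ∈ s, uinf n ^ 2 ≤ Real.exp 4 :=
  le_of_tendsto (tendsto_finsetSum _ fun i _ => (tendsto_uu i).pow 2)
    (Eventually.of_forall fun k => uu_l2 k s)

theorem summable_uinf : Summable fun n => uinf n ^ 2 :=
  summable_of_sum_le (fun _ => sq_nonneg _) uinf_l2

/-- The eigenvalue equation. -/
theorem uinf_eq (n : ℤ) : uinf (n + 1) + uinf (n - 1) + Vinf dd n * uinf n = 5 / 2 * uinf n := by
  have h1 : Tendsto (fun k => 5 / 2 * uu k n - (uu k (n + 1) + uu k (n - 1) + Vk dd k n * uu k n))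
      atTop (𝓝 (5 / 2 * uinf n - (uinf (n + 1) + uinf (n - 1) + Vinf dd n * uinf n))) :=
    ((tendsto_uu n).const_mul _).sub (((tendsto_uu (n + 1)).add (tendsto_uu (n - 1))).add
      ((Vk_tendsto dd summable_abs_dd n).mul (tendsto_uu n)))
  have hdl : ∀ a : ℤ, |dl a n| ≤ 1 := by
    intro a
    unfold dl
    split_ifs <;> simp
  have h2 : Tendsto (fun k => DD k * dl 0 n - BB k * (dl (2 ^ k) n + dl (-2 ^ k) n)) atTop (𝓝 0) := by
    have h3 : Tendsto (fun k => DD k * dl 0 n) atTop (𝓝 0) := by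
      have := tendsto_DD.mul_const (dl 0 n)
      simpa using this
    have h4 : Tendsto (fun k => BB k * (dl (2 ^ k) n + dl (-2 ^ k) n)) atTop (𝓝 0) := by
      apply squeeze_zero_norm (a := fun k => 2 * BB k)
      · intro k
        rw [Real.norm_eq_abs, abs_mul, abs_of_pos (BB_pos k)]
        have h4 : |dl (2 ^ k) n + dl (-2 ^ k) n| ≤ 2 := by
          calc _ ≤ |dl (2 ^ k) n| + |dl (-2 ^ k) n| := abs_add_le _ _
            _ ≤ 1 + 1 := add_le_add (hdl _) (hdl _)
            _ = 2 := by norm_num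
        nlinarith [BB_pos k]
      · have := tendsto_BB.const_mul 2
        simpa using this
    have := h3.sub h4
    simpa using this
  simp only [uu_res] at h1
  have h3 := tendsto_nhds_unique h1 h2
  linarith

end Pool.Agent.LimPer.Mix
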