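import Mathlib
import Pool.Agent.Lib.MP_b5b0d6_mp.Hier

/-!
# The a.c. part of the hierarchical operators, with the support of the measures
-/

set_option autoImplicit false

namespace Pool.Agent.LimPer

open Finset Filter Topology MeasureTheory Polynomial
open scoped ENNReal

/-- For `Σ|d_j| < 2` one of the spectral measures at sites `0`, `1` is not singular (with support). -/
theorem exists_nonsingular_supp (d : ℕ → ℝ) (hd : Summable fun j => |d j|)
    (hlt : ∑' j, |d j| < 2) :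
    ∃ k : ℤ, ∃ μ : Measure ℝ, IsFiniteMeasure μ ∧ (∃ R : ℝ, μ (Set.Icc (-R) R)ᶜ = 0) ∧
      (∀ m : ℕ, ∫ x, x ^ m ∂μ = fnl (Vinf d) k (X ^ m)) ∧
      ¬ Measure.MutuallySingular μ (volume : Measure ℝ) := by
  obtain ⟨R, hR, hall⟩ := exists_spectral_measure (Vinf d) _ (Vinf_bdd d hd)
  obtain ⟨μ0, hf0, hs0, hm0⟩ := hall 0
  obtain ⟨μ1, hf1, hs1, hm1⟩ := hall 1
  -- enlarge the support interval
  set R' : ℝ := max R 2 with hR'
  have hmono : Set.Icc (-R) R ⊆ Set.Icc (-R') R' := by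
    intro x hx
    have : R ≤ R' := le_max_left _ _
    exact ⟨by linarith [hx.1], by linarith [hx.2]⟩
  have hs0' : μ0 (Set.Icc (-R') R')ᶜ = 0 :=
    measure_mono_null (Set.compl_subset_compl.mpr hmono) hs0
  have hs1' : μ1 (Set.Icc (-R') R')ᶜ = 0 :=
    measure_mono_null (Set.compl_subset_compl.mpr hmono) hs1
  by_cases h0 : μ0 ⟂ₘ (volume : Measure ℝ)
  swap
  · exact ⟨0, μ0, hf0, ⟨R, hs0⟩, hm0, h0⟩
  by_cases h1 : μ1 ⟂ₘ (volume : Measure ℝ)
  swap
  · exact ⟨1, μ1, hf1, ⟨R, hs1⟩, hm1, h1⟩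
  exfalso
  have hsum : (μ0 + μ1) ⟂ₘ (volume : Measure ℝ) := h0.add_left h1
  refine not_singular_of_poly_ineq (μ0 + μ1) R' (1 / Real.pi) ?_ (AA d) (AA_measurable d) ?_
    (AA_pos d hd hlt) (one_div_pos.mpr Real.pi_pos) ?_ hsum
  · rw [Measure.add_apply, hs0', hs1', add_zero]
  · intro x hx
    have : x ∈ sg d 0 := Set.mem_iInter.mp hx 0
    rw [sg_zero] at this
    have h2 : 2 ≤ R' := le_max_right _ _
    exact ⟨by linarith [this.1], by linarith [this.2]⟩
  · intro q
    have hi0 : Integrable (fun t => (q.eval t) ^ 2) μ0 :=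
      integrable_of_continuous μ0 R hs0 _ (q.continuous.pow 2)
    have hi1 : Integrable (fun t => (q.eval t) ^ 2) μ1 :=
      integrable_of_continuous μ1 R hs1 _ (q.continuous.pow 2)
    rw [integral_add_measure hi0 hi1,
      integral_sq (Vinf d) 0 μ0 R hs0 hm0 q, integral_sq (Vinf d) 1 μ1 R hs1 hm1 q]
    have := ac_limit d hd q
    rw [one_div, inv_mul_le_iff₀ Real.pi_pos]
    exact this

/-- Scaling of the coefficients. -/
theorem Vinf_smul (d : ℕ → ℝ) (t : ℝ) (n : ℤ) : Vinf (fun j => t * d j) n = t * Vinf d n := by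
  have h1 : ∀ j, lev (fun j => t * d j) n j = t * lev d n j := by
    intro j
    unfold lev
    split_ifs <;> simp
  simp only [Vinf, h1]
  rw [tsum_mul_left]

end Pool.Agent.LimPer
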