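import Mathlib
import Pool.Agent.Lib.MP_b5b0d6_mp.Hier

set_option autoImplicit false

namespace Pool.Agent.LimPer

open Finset Filter Topology MeasureTheory Polynomial

/-- Riesz product ratios. -/
noncomputable def rr (k : ℕ) : ℝ := (1 / 2) ^ (k + 1)

/-- Products of the ratios (effective hopping). -/
noncomputable def BB : ℕ → ℝ
  | 0 => 1
  | k + 1 => rr k * BB k

/-- Effective energy differences. -/
noncomputable def DD : ℕ → ℝ
  | 0 => 2
  | k + 1 => 2 * BB k

/-- Level coefficients of the potential. -/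
noncomputable def dd (k : ℕ) : ℝ := DD k - DD (k + 1) - 2 * BB (k + 1)

theorem rr_nonneg (k : ℕ) : 0 ≤ rr k := by unfold rr; positivity

theorem rr_DD (k : ℕ) : rr k * DD k = BB k := by
  cases k with
  | zero => simp [rr, DD, BB]
  | succ k =>
    simp only [DD, BB, rr]
    ring

theorem BB_nonneg (k : ℕ) : 0 ≤ BB k := by
  induction k with
  | zero => simp [BB]
  | succ k ih =>
    simp only [BB]
    exact mul_nonneg (rr_nonneg k) ih

theorem BB_le (k : ℕ) : BB k ≤ (1 / 2) ^ k := by
  induction k with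
  | zero => simp [BB]
  | succ k ih =>
    simp only [BB]
    have h1 : rr k ≤ 1 / 2 := by
      unfold rr
      calc ((1:ℝ) / 2) ^ (k + 1) ≤ (1 / 2) ^ 1 :=
            pow_le_pow_of_le_one (by norm_num) (by norm_num) (by omega)
        _ = 1 / 2 := by norm_num
    calc rr k * BB k ≤ 1 / 2 * (1 / 2) ^ k :=
          mul_le_mul h1 ih (BB_nonneg k) (by norm_num)
      _ = (1 / 2) ^ (k + 1) := by ring

theorem DD_nonneg (k : ℕ) : 0 ≤ DD k := by
  cases k with
  | zero => simp [DD]
  | succ k => simp only [DD]; have := BB_nonneg k; positivity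

theorem DD_le (k : ℕ) : DD k ≤ 4 * (1 / 2) ^ k := by
  cases k with
  | zero => norm_num [DD]
  | succ k =>
    simp only [DD]
    have := BB_le k
    rw [pow_succ]
    linarith

theorem summable_dd : Summable fun j => |dd j| := by
  refine Summable.of_nonneg_of_le (fun j => abs_nonneg _) (fun j => ?_)
    ((summable_geometric_of_lt_one (by norm_num) (by norm_num : (1:ℝ)/2 < 1)).mul_left 8)
  unfold dd
  have h1 := DD_le j
  have h2 := DD_le (j + 1)
  have h3 := BB_le (j + 1)
  have h4 := DD_nonneg j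
  have h5 := DD_nonneg (j + 1)
  have h6 := BB_nonneg (j + 1)
  rw [pow_succ] at h2 h3
  have h7 : (0:ℝ) < (1 / 2) ^ j := by positivity
  rw [abs_le]
  constructor <;> linarith

/-- Partial Riesz product coefficients. -/
noncomputable def uu : ℕ → ℤ → ℝ
  | 0 => Pi.single 0 1
  | k + 1 => fun n => uu k n + rr k * (uu k (n - 2 ^ k) + uu k (n + 2 ^ k))

theorem uu_supp (k : ℕ) (n : ℤ) (h : (2 : ℤ) ^ k ≤ |n|) : uu k n = 0 := by
  induction k generalizing n with
  | zero =>
    simp only [uu]
    have : n ≠ 0 := by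
      intro h0
      subst h0
      simp at h
    simp [this]
  | succ k ih =>
    simp only [uu]
    have hp : (0 : ℤ) < 2 ^ k := by positivity
    have h' : 2 * (2 : ℤ) ^ k ≤ |n| := by rw [pow_succ] at h; linarith
    rw [ih n (by linarith), ih (n - 2 ^ k), ih (n + 2 ^ k)]
    · ring
    · rcases abs_cases n with ⟨h1, h2⟩ | ⟨h1, h2⟩
      · rw [abs_of_nonneg (by linarith)]; linarith
      · rw [le_abs]; right; linarith
    · rcases abs_cases n with ⟨h1, h2⟩ | ⟨h1, h2⟩
      · rw [le_abs]; left; linarith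
      · rw [abs_of_nonpos (by linarith)]; linarith

theorem uu_zero (k : ℕ) : uu k 0 = 1 := by
  induction k with
  | zero => simp [uu]
  | succ k ih =>
    have hp : (0 : ℤ) < 2 ^ k := by positivity
    simp only [uu]
    rw [ih, uu_supp k (0 - 2 ^ k), uu_supp k (0 + 2 ^ k)]
    · ring
    · rw [zero_add, abs_of_pos hp]
    · rw [zero_sub, abs_neg, abs_of_pos hp]

theorem uu_l1 (k : ℕ) (s : Finset ℤ) :
    ∑ n ∈ s, |uu k n| ≤ Real.exp (2 * (1 - (1 / 2) ^ k)) := by
  induction k generalizing s with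
  | zero =>
    simp only [uu, pow_zero, sub_self, mul_zero, Real.exp_zero]
    calc ∑ n ∈ s, |(Pi.single 0 1 : ℤ → ℝ) n| ≤ ∑ n ∈ insert 0 s, |(Pi.single 0 1 : ℤ → ℝ) n| :=
          Finset.sum_le_sum_of_subset_of_nonneg (Finset.subset_insert _ _)
            (fun _ _ _ => abs_nonneg _)
      _ = 1 := by
          rw [Finset.sum_eq_single_of_mem 0 (Finset.mem_insert_self _ _)]
          · simp
          · intro b _ hb
            simp [hb]
  | succ k ih =>
    have h1 : ∑ n ∈ s, |uu k (n - 2 ^ k)| ≤ Real.exp (2 * (1 - (1 / 2) ^ k)) := by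
      have := ih (s.map (Equiv.subRight ((2 : ℤ) ^ k)).toEmbedding)
      rw [Finset.sum_map] at this
      exact this
    have h2 : ∑ n ∈ s, |uu k (n + 2 ^ k)| ≤ Real.exp (2 * (1 - (1 / 2) ^ k)) := by
      have := ih (s.map (Equiv.addRight ((2 : ℤ) ^ k)).toEmbedding)
      rw [Finset.sum_map] at this
      exact this
    have h0 := ih s
    set M := Real.exp (2 * (1 - (1 / 2) ^ k)) with hM
    have hr := rr_nonneg k
    calc ∑ n ∈ s, |uu (k + 1) n| ≤
        ∑ n ∈ s, (|uu k n| + rr k * (|uu k (n - 2 ^ k)| + |uu k (n + 2 ^ k)|)) := by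
          apply Finset.sum_le_sum
          intro n _
          simp only [uu]
          calc _ ≤ |uu k n| + |rr k * (uu k (n - 2 ^ k) + uu k (n + 2 ^ k))| := abs_add_le _ _
            _ ≤ _ := by
                rw [abs_mul, abs_of_nonneg hr]
                gcongr
                exact abs_add_le _ _
      _ = ∑ n ∈ s, |uu k n| + rr k * (∑ n ∈ s, |uu k (n - 2 ^ k)| + ∑ n ∈ s, |uu k (n + 2 ^ k)|) := by
          rw [Finset.sum_add_distrib, ← Finset.mul_sum, Finset.sum_add_distrib]
      _ ≤ M + rr k * (M + M) := by gcongr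
      _ = M * (1 + 2 * rr k) := by ring
      _ ≤ M * Real.exp (2 * rr k) := by
          have := Real.add_one_le_exp (2 * rr k)
          have hMpos : 0 < M := Real.exp_pos _
          gcongr
          linarith
      _ = Real.exp (2 * (1 - (1 / 2) ^ (k + 1))) := by
          rw [hM, ← Real.exp_add]
          congr 1
          unfold rr
          ring

theorem uu_l1' (k : ℕ) (s : Finset ℤ) : ∑ n ∈ s, |uu k n| ≤ Real.exp 2 := by
  refine (uu_l1 k s).trans (Real.exp_le_exp.mpr ?_)
  have : (0:ℝ) < (1 / 2) ^ k := by positivity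
  linarith

theorem uu_l2 (k : ℕ) (s : Finset ℤ) : ∑ n ∈ s, uu k n ^ 2 ≤ Real.exp 4 := by
  have h1 := uu_l1' k s
  have h2 : ∑ n ∈ s, uu k n ^ 2 ≤ (∑ n ∈ s, |uu k n|) ^ 2 := by
    rw [pow_two, Finset.sum_mul]
    apply Finset.sum_le_sum
    intro n hn
    rw [← sq_abs, pow_two]
    apply mul_le_mul_of_nonneg_left _ (abs_nonneg _)
    exact Finset.single_le_sum (f := fun n => |uu k n|) (fun _ _ => abs_nonneg _) hn
  have h3 : (∑ n ∈ s, |uu k n|) ^ 2 ≤ (Real.exp 2) ^ 2 :=
    pow_le_pow_left₀ (Finset.sum_nonneg fun _ _ => abs_nonneg _) h1 2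
  have h4 : (Real.exp 2) ^ 2 = Real.exp 4 := by
    rw [← Real.exp_nat_mul]
    norm_num
  linarith

theorem uu_abs_le (k : ℕ) (n : ℤ) : |uu k n| ≤ Real.exp 2 := by
  have := uu_l1' k {n}
  simpa using this

/-- Delta function. -/
noncomputable def dl (a n : ℤ) : ℝ := if n = a then 1 else 0

/-- The residual identity. -/
theorem uu_res (k : ℕ) (n : ℤ) :
    2 * uu k n - (uu k (n + 1) + uu k (n - 1) + Vk dd k n * uu k n) =
      DD k * dl 0 n - BB k * (dl (2 ^ k) n + dl (-2 ^ k) n) := by
  induction k generalizing n with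
  | zero =>
    simp only [uu, DD, BB, Vk, Finset.range_zero, Finset.sum_empty, zero_mul, add_zero, pow_zero,
      dl, Pi.single_apply, one_mul]
    by_cases h0 : n = 0
    · subst h0
      norm_num
    by_cases h1 : n = 1
    · subst h1
      norm_num
    by_cases h2 : n = -1
    · subst h2
      norm_num
    · have h3 : n + 1 ≠ 0 := by omega
      have h4 : n - 1 ≠ 0 := by omega
      simp [h0, h1, h2, h3, h4]
  | succ k ih =>
    have hper : ∀ m : ℤ, Vk dd k (m + 2 ^ k) = Vk dd k m := by
      intro m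
      have := Vk_periodic dd k m
      push_cast at this
      exact this
    have hper' : ∀ m : ℤ, Vk dd k (m - 2 ^ k) = Vk dd k m := by
      intro m
      have := hper (m - 2 ^ k)
      rw [sub_add_cancel] at this
      exact this.symm
    have i0 := ih n
    have i1 := ih (n - 2 ^ k)
    have i2 := ih (n + 2 ^ k)
    rw [hper'] at i1
    rw [hper] at i2
    have e1 : n - 2 ^ k + 1 = n + 1 - 2 ^ k := by ring
    have e2 : n - 2 ^ k - 1 = n - 1 - 2 ^ k := by ring
    have e3 : n + 2 ^ k + 1 = n + 1 + 2 ^ k := by ring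
    have e4 : n + 2 ^ k - 1 = n - 1 + 2 ^ k := by ring
    rw [e1, e2] at i1
    rw [e3, e4] at i2
    have hlev : lev dd n k * uu (k + 1) n = dd k * dl 0 n := by
      by_cases h0 : n = 0
      · subst h0
        rw [uu_zero]
        simp [lev, dl]
      · have hz : dl 0 n = 0 := by simp [dl, h0]
        rw [hz, mul_zero]
        by_cases hdvd : (2 : ℤ) ^ (k + 1) ∣ n
        · have : (2 : ℤ) ^ (k + 1) ≤ |n| := by
            apply Int.le_of_dvd (abs_pos.mpr h0)
            exact (dvd_abs _ _).mpr hdvd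
          rw [uu_supp (k + 1) n this, mul_zero]
        · simp [lev, hdvd]
    have hrD := rr_DD k
    have hB : BB (k + 1) = rr k * BB k := rfl
    have hd : dd k = DD k - DD (k + 1) - 2 * BB (k + 1) := rfl
    -- delta function bookkeeping
    have d1 : dl 0 (n - 2 ^ k) = dl (2 ^ k) n := by
      simp only [dl]; congr 1; simp only [eq_iff_iff]; constructor <;> intro h <;> linarith
    have d2 : dl (2 ^ k) (n - 2 ^ k) = dl (2 ^ (k + 1)) n := by
      simp only [dl]; congr 1; simp only [eq_iff_iff]; rw [pow_succ]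
      constructor <;> intro h <;> linarith
    have d3 : dl (-2 ^ k) (n - 2 ^ k) = dl 0 n := by
      simp only [dl]; congr 1; simp only [eq_iff_iff]; constructor <;> intro h <;> linarith
    have d4 : dl 0 (n + 2 ^ k) = dl (-2 ^ k) n := by
      simp only [dl]; congr 1; simp only [eq_iff_iff]; constructor <;> intro h <;> linarith
    have d5 : dl (2 ^ k) (n + 2 ^ k) = dl 0 n := by
      simp only [dl]; congr 1; simp only [eq_iff_iff]; constructor <;> intro h <;> linarith
    have d6 : dl (-2 ^ k) (n + 2 ^ k) = dl (-2 ^ (k + 1)) n := by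
      simp only [dl]; congr 1; simp only [eq_iff_iff]; rw [pow_succ]
      constructor <;> intro h <;> linarith
    rw [d1, d2, d3] at i1
    rw [d4, d5, d6] at i2
    rw [Vk_succ, add_mul, hlev]
    simp only [uu]
    rw [hd, hB]
    linear_combination i0 + rr k * i1 + rr k * i2 + (dl (2 ^ k) n + dl (-2 ^ k) n) * hrD

/-- The polynomial evaluation on the approximate eigenvectors converges. -/
theorem pair_uu_tendsto (q : ℝ[X]) :
    Tendsto (fun k => pair (uu k) (vec (Vinf dd) q 0)) atTop (𝓝 (q.eval 2)) := by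
  obtain ⟨t, ht⟩ := Polynomial.X_sub_C_dvd_sub_C_eval (a := (2:ℝ)) (p := q)
  have hq : q = C (q.eval 2) + t * (X - C 2) := by
    rw [mul_comm t, ← ht]
    ring
  set V := Vinf dd with hV
  have hBB0 : Tendsto BB atTop (𝓝 0) := by
    refine squeeze_zero BB_nonneg BB_le ?_
    exact tendsto_pow_atTop_nhds_zero_of_lt_one (by norm_num) (by norm_num)
  have hDD0 : Tendsto DD atTop (𝓝 0) := by
    refine squeeze_zero DD_nonneg DD_le ?_
    have := (tendsto_pow_atTop_nhds_zero_of_lt_one (by norm_num : (0:ℝ) ≤ 1/2)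
      (by norm_num)).const_mul 4
    simpa using this
  have e : ∀ k, pair (uu k) (vec V q 0) = q.eval 2 +
      pair (op V (uu k) - (2 : ℝ) • uu k) (vec V t 0) := by
    intro k
    have h1 : ∀ (q' : ℝ[X]) (g : ℤ → ℝ), pair g (vec V q' 0) = aeval (op V) q' g 0 := by
      intro q' g
      rw [vec, pair_aeval, pair_single, one_smul]
    rw [h1, h1]
    conv_lhs => rw [hq]
    rw [map_add, map_mul, LinearMap.add_apply, Module.End.mul_apply, Pi.add_apply]
    congr 1
    · rw [aeval_C, Module.algebraMap_end_apply, Pi.smul_apply, uu_zero, smul_eq_mul, mul_one]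
    · congr 2
      rw [map_sub, aeval_X, aeval_C, LinearMap.sub_apply, Module.algebraMap_end_apply]
  have hR : ∀ n : ℤ, Tendsto (fun k => (op V (uu k) - (2 : ℝ) • uu k) n) atTop (𝓝 0) := by
    intro n
    have h1 : ∀ k, (op V (uu k) - (2 : ℝ) • uu k) n =
        -(DD k * dl 0 n - BB k * (dl (2 ^ k) n + dl (-2 ^ k) n)) +
          (V n - Vk dd k n) * uu k n := by
      intro k
      rw [← uu_res k n, Pi.sub_apply, Pi.smul_apply, op_apply, smul_eq_mul, smul_eq_mul]
      ring
    have hdl : ∀ a : ℤ, |dl a n| ≤ 1 := by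
      intro a
      unfold dl
      split_ifs <;> simp
    have h2 : Tendsto (fun k => DD k * dl 0 n) atTop (𝓝 0) := by
      have := hDD0.mul_const (dl 0 n)
      simpa using this
    have h3 : Tendsto (fun k => BB k * (dl (2 ^ k) n + dl (-2 ^ k) n)) atTop (𝓝 0) := by
      apply squeeze_zero_norm (a := fun k => 2 * BB k)
      · intro k
        rw [Real.norm_eq_abs, abs_mul, abs_of_nonneg (BB_nonneg k)]
        have h4 : |dl (2 ^ k) n + dl (-2 ^ k) n| ≤ 2 := by
          calc _ ≤ |dl (2 ^ k) n| + |dl (-2 ^ k) n| := abs_add_le _ _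
            _ ≤ 1 + 1 := add_le_add (hdl _) (hdl _)
            _ = 2 := by norm_num
        nlinarith [BB_nonneg k]
      · have := hBB0.const_mul 2
        simpa using this
    have h5 : Tendsto (fun k => (V n - Vk dd k n) * uu k n) atTop (𝓝 0) := by
      apply squeeze_zero_norm (a := fun k => |V n - Vk dd k n| * Real.exp 2)
      · intro k
        rw [Real.norm_eq_abs, abs_mul]
        exact mul_le_mul_of_nonneg_left (uu_abs_le k n) (abs_nonneg _)
      · have h6 : Tendsto (fun k => V n - Vk dd k n) atTop (𝓝 (V n - V n)) :=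
          tendsto_const_nhds.sub (Vk_tendsto dd summable_dd n)
        rw [sub_self] at h6
        have := h6.abs.mul_const (Real.exp 2)
        simpa using this
    simp only [h1]
    have := ((h2.sub h3).neg).add h5
    simpa using this
  simp only [e]
  have hp : Tendsto (fun k => pair (op V (uu k) - (2 : ℝ) • uu k) (vec V t 0)) atTop (𝓝 0) := by
    simp only [pair_eq_sum]
    have : Tendsto (fun k => ∑ n ∈ (vec V t 0).support, vec V t 0 n •
        (op V (uu k) - (2 : ℝ) • uu k) n) atTop
        (𝓝 (∑ n ∈ (vec V t 0).support, vec V t 0 n • (0:ℝ))) := by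
      apply tendsto_finsetSum
      intro n _
      exact (hR n).const_smul _
    simpa using this
  have := (tendsto_const_nhds (x := q.eval 2)).add hp
  simpa using this

theorem pair_uu_sq_le (k : ℕ) (f : ℤ →₀ ℝ) : (pair (uu k) f) ^ 2 ≤ Real.exp 4 * nsq f := by
  rw [pair_eq_sum, nsq]
  have h := Finset.sum_mul_sq_le_sq_mul_sq f.support (fun n => f n) (fun n => uu k n)
  have h2 := uu_l2 k f.support
  have h3 : 0 ≤ ∑ n ∈ f.support, f n ^ 2 := Finset.sum_nonneg fun _ _ => sq_nonneg _
  simp only [smul_eq_mul]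
  nlinarith

theorem eval_sq_le (q : ℝ[X]) : (q.eval 2) ^ 2 ≤ Real.exp 4 * nsq (vec (Vinf dd) q 0) := by
  apply le_of_tendsto ((pair_uu_tendsto q).pow 2)
  exact Eventually.of_forall fun k => pair_uu_sq_le k _

/-- The pure point part: the spectral measure of `δ_0` has an atom at `2`. -/
theorem exists_not_ac : ∃ k : ℤ, ∃ μ : Measure ℝ, IsFiniteMeasure μ ∧
    (∀ m : ℕ, Integrable (fun x : ℝ => x ^ m) μ) ∧
      (∀ m : ℕ, ∫ x, x ^ m ∂μ = fnl (Vinf dd) k (X ^ m)) ∧
      ¬ Measure.AbsolutelyContinuous μ (volume : Measure ℝ) := by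
  obtain ⟨R, hR, hall⟩ := exists_spectral_measure (Vinf dd) _ (Vinf_bdd dd summable_dd)
  obtain ⟨μ, hf, hs, hm⟩ := hall 0
  refine ⟨0, μ, hf, fun m => integrable_of_continuous μ R hs _ (continuous_pow m), hm, ?_⟩
  intro hac
  set R' : ℝ := max R 2 with hR'
  have hs' : μ (Set.Icc (-R') R')ᶜ = 0 := by
    refine measure_mono_null (Set.compl_subset_compl.mpr ?_) hs
    intro x hx
    have : R ≤ R' := le_max_left _ _
    exact ⟨by linarith [hx.1], by linarith [hx.2]⟩
  have h2 : (2:ℝ) ≤ R' := le_max_right _ _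
  have hatom := atom_of_poly_ineq μ R' 2 (Real.exp (-4)) (by linarith)
    (by rw [abs_of_pos (by norm_num : (0:ℝ) < 2)]; exact h2) hs' (by
      intro q
      rw [integral_sq (Vinf dd) 0 μ R hs hm q, Real.exp_neg, inv_mul_le_iff₀ (Real.exp_pos 4)]
      exact eval_sq_le q)
  have hzero : μ {2} = 0 := hac (by simp)
  rw [hzero] at hatom
  simp only [ENNReal.toReal_zero] at hatom
  exact absurd (Real.exp_pos (-4)) (not_lt.mpr hatom)

end Pool.Agent.LimPer
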